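import Pool.Agent.P.MP_50fd71_pr.E8.Defs

/-!
The contribution of one box of positions of the nearest point outside the cluster.
-/

open MeasureTheory Set Metric Bornology

noncomputable section

namespace Pool.Agent.P.MP_50fd71_pr.E8

namespace CellP

lemma meas_box (ρ₁ ρ₂ θ₁ θ₂ : ℝ) : MeasurableSet (Box ρ₁ ρ₂ θ₁ θ₂) := by
  have h : Measurable fun x : ℂ => |x.arg| := continuous_abs.measurable.comp Complex.measurable_arg
  exact (measurableSet_le measurable_const measurable_norm).inter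
    ((measurableSet_le measurable_norm measurable_const).inter
      ((measurableSet_le measurable_const h).inter (measurableSet_le h measurable_const)))

lemma bdd_box (ρ₁ ρ₂ θ₁ θ₂ : ℝ) : IsBounded (Box ρ₁ ρ₂ θ₁ θ₂) :=
  (isBounded_closedBall (x := (0 : ℂ)) (r := ρ₂)).subset fun _ hx =>
    mem_closedBall_zero_iff.mpr hx.2.1

lemma ann (z : ℂ) {R R' d m : ℝ} (h0 : 0 ≤ R) (h1 : R ≤ R') (h2 : R' ≤ R + d) (h3 : R + R' ≤ m) :
    ar (ball z R' \ ball z R) ≤ 63 / 20 * (m * d) := by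
  rw [ar_diff isBounded_ball measurableSet_ball, inter_eq_right.2 (ball_subset_ball h1),
    ar_ball _ h0, ar_ball _ (h0.trans h1), ← mul_sub]
  have h4 : R' ^ 2 - R ^ 2 ≤ m * d := by
    rw [show R' ^ 2 - R ^ 2 = (R + R') * (R' - R) by ring]
    exact mul_le_mul h3 (by linarith) (by linarith) (by linarith)
  exact mul_le_mul (by linarith [Real.pi_lt_d2]) h4 (by nlinarith) (by norm_num)

lemma cov {A B C : Set ℂ} (h : A ⊆ B ∪ C) (hB : IsBounded B) (hC : IsBounded C) :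
    ar A ≤ ar B + ar C := (ar_mono h (hB.union hC)).trans (ar_union_le _ _)

lemma one (h1 : STail) (h4 : SShell) (k n : ℕ) (r c w η ζ : ℝ) (s e a b t M : ℕ → ℝ)
    (hζ : 0 < ζ) (hζη : ζ ≤ η) (hη : η ≤ 1 / 100) (hr : 0 < r) (hw : c + 5 * η ≤ w)
    (hs0 : s 0 = 0) (hs : Monotone s) (hsn : s n = 1) (hM : M n = 0) (O : Set ℂ)
    (hO : MeasurableSet O) (hOη : O ⊆ closedBall 0 η) (u : ℂ) (hu : u ∈ GG r c) (u1 : η ≤ ‖u‖)
    (u2 : ‖u‖ ≤ 3) (u3 : r + ‖u‖ ≤ c)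
    (hA : ∀ j < n,
      e j ≤ max 0 (ar (ball 0 ‖u‖ ∩ (DD r ∪ (GG r c ∩ ball u (s j * ‖u‖)))) - 60 * η) ∧
      ar (ball 0 ‖u‖ \ (DD r ∪ ball u (s j * ‖u‖))) + 60 * η ≤ a j ∧
      ar (ball u (s (j + 1) * ‖u‖) \ (GG r c ∩ ball 0 ‖u‖)) + 60 * η ≤ b (j + 1))
    (hT : ∀ j < n, Real.exp (-e j) * T k (a j) ≤ M j ∧ T k (b (j + 1)) ≤ t (j + 1) ∧
      0 ≤ t (j + 1)) :
    UB ((ball (r : ℂ) w \ O) \ closedBall u ζ)
      (Sh k n (fun j => EE r c ζ u (O ∪ closedBall u ζ) (rad n s η u j))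
        (fun j => AA r η u (O ∪ closedBall u ζ) (rad n s η u j))
        (fun j => BB r c ζ u (O ∪ closedBall u ζ) (rad n s η u j))
        (fun j => BB r c ζ u (O ∪ closedBall u ζ) (rad n s η u (j + 1) + 4 * ζ)))
      (∑ j ∈ Finset.range n, t (j + 1) * max 0 (M j - M (j + 1)) + n * (80 * ζ)) := by
  set N := O ∪ closedBall u ζ with hN
  have mN : MeasurableSet N := hO.union measurableSet_closedBall
  have mD : MeasurableSet (DD r) := measurableSet_closedBall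
  have mG := meas_GG r c
  have okE : ∀ σ, Ok (EE r c ζ u N σ) := fun σ =>
    ((ok_ball _ _).inter (mD.union (mG.inter measurableSet_ball))).diff mN
  have okA : ∀ σ, Ok (AA r η u N σ) := fun σ =>
    ((ok_ball _ _).diff (mD.union measurableSet_ball)).diff mN
  have okB : ∀ σ, Ok (BB r c ζ u N σ) := fun σ =>
    ((ok_ball _ _).diff (mG.inter measurableSet_ball)).diff mN
  have n0 := norm_nonneg u
  have s0 : ∀ j, 0 ≤ s j * ‖u‖ := fun j => mul_nonneg (hs0 ▸ hs (Nat.zero_le j)) n0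
  have s1 : ∀ j ≤ n, s j * ‖u‖ ≤ ‖u‖ := fun j hj => mul_le_of_le_one_left n0 (hsn ▸ hs hj)
  have r0 : ∀ j < n, rad n s η u j = s j * ‖u‖ := fun j hj => if_pos hj
  have r1 : ∀ j < n, s (j + 1) * ‖u‖ ≤ rad n s η u (j + 1) ∧
      rad n s η u (j + 1) ≤ s (j + 1) * ‖u‖ + η := fun j hj => by
    unfold rad
    split_ifs with h
    · exact ⟨le_rfl, by linarith⟩
    · rw [show j + 1 = n by omega, hsn, one_mul]
      exact ⟨by linarith, le_rfl⟩
  have r2 : ∀ j < n, rad n s η u j ≤ rad n s η u (j + 1) := fun j hj => by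
    rw [r0 j hj]
    exact (mul_le_mul_of_nonneg_right (hs (Nat.le_succ j)) n0).trans (r1 j hj).1
  have d0 : ∀ x : ℂ, dist x (r : ℂ) ≤ ‖x‖ + r := fun x => by
    have := dist_triangle x 0 (r : ℂ)
    rwa [dist_zero_right, dist_comm 0, dist_zero_right, Complex.norm_real,
      Real.norm_of_nonneg hr.le] at this
  have du : dist u (r : ℂ) + ‖u‖ ≤ c := hu
  have inW : ∀ x : ℂ, dist x (r : ℂ) < w → x ∉ N → x ∈ (ball (r : ℂ) w \ O) \ closedBall u ζ :=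
    fun x h h' => ⟨⟨h, fun h2 => h' (Or.inl h2)⟩, fun h2 => h' (Or.inr h2)⟩
  have mB : ∀ σ σ', σ ≤ σ' → BB r c ζ u N σ ⊆ BB r c ζ u N σ' := fun σ σ' h x hx =>
    ⟨⟨ball_subset_ball h hx.1.1, hx.1.2⟩, hx.2⟩
  have bd : ∀ (z : ℂ) (R : ℝ) (X : Set ℂ), IsBounded (ball z R \ X) := fun z R X =>
    isBounded_ball.subset sdiff_subset
  have a0 : ar (ball 0 ‖u‖ \ ball 0 (‖u‖ - ζ)) ≤ 63 / 20 * (6 * ζ) :=
    ann 0 (by linarith) (by linarith) (by linarith) (by linarith)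
  refine h4 k n _ _ _ _ _ (80 * ζ) t M (by linarith) hM
    (fun j => ⟨okE _, okA _, okB _, okB _⟩) (fun j hj => ⟨fun x hx => inW x ?_ hx.2,
      fun x hx => inW x ?_ hx.2, fun x hx => inW x ?_ hx.2, mB _ _ (by linarith [r2 j hj]),
      mB _ _ (r2 j hj)⟩) (fun j hj => ⟨?_, ?_, ?_⟩) fun j hj => ⟨?_, ?_, ?_⟩
  · have := mem_ball_zero_iff.1 hx.1.1
    linarith [d0 x]
  · have := mem_ball_zero_iff.1 hx.1.1
    linarith [d0 x]
  · have := mem_ball.1 hx.1.1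
    linarith [dist_triangle x u (r : ℂ), (r1 j hj).2, s1 (j + 1) hj]
  · exact Set.disjoint_left.2 fun x hx hx' => hx'.1.2 (hx.1.2.imp_right fun h => h.2)
  · refine Set.disjoint_left.2 fun x hx hx' => hx'.1.2 ⟨hx.1.2.elim (fun h => ?_) fun h => h.1,
      hx.1.1⟩
    have e1 : dist x (r : ℂ) ≤ r := h
    have e2 := mem_ball_zero_iff.1 hx.1.1
    change dist x (r : ℂ) + ‖x‖ ≤ c
    linarith
  · exact Set.disjoint_left.2 fun x hx hx' => hx.1.2 (Or.inr hx'.1.1)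
  · obtain ⟨e1, e2⟩ := r1 j hj
    have e3 := s1 (j + 1) hj
    have e4 := ann u (R := rad n s η u (j + 1)) (R' := rad n s η u (j + 1) + 4 * ζ) (d := 4 * ζ)
      (m := 31 / 5) ((s0 _).trans e1) (by linarith) le_rfl (by linarith)
    refine (cov (C := ball u (rad n s η u (j + 1) + 4 * ζ) \ ball u (rad n s η u (j + 1)))
      (fun x hx => ?_) (okB _).2 (bd _ _ _)).trans (add_le_add le_rfl (by linarith))
    by_cases h : x ∈ ball u (rad n s η u (j + 1))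
    · exact Or.inl ⟨⟨h, hx.1.2⟩, hx.2⟩
    · exact Or.inr ⟨hx.1.1, h⟩
  · obtain ⟨e1, e2, -⟩ := hA j hj
    rw [r0 j hj]
    have eE : e j ≤ ar (EE r c ζ u N (s j * ‖u‖)) := by
      refine e1.trans (max_le (ar_nonneg _) ?_)
      have f1 := cov (A := ball 0 ‖u‖ ∩ (DD r ∪ (GG r c ∩ ball u (s j * ‖u‖))))
        (B := EE r c ζ u N (s j * ‖u‖))
        (C := (ball 0 ‖u‖ \ ball 0 (‖u‖ - ζ)) ∪ (closedBall 0 η ∪ closedBall u ζ))
        (fun x hx => by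
          by_cases c1 : x ∈ N
          · exact Or.inr (Or.inr (c1.imp_left fun h => hOη h))
          by_cases c2 : x ∈ ball (0 : ℂ) (‖u‖ - ζ)
          · exact Or.inl ⟨⟨c2, hx.2⟩, c1⟩
          · exact Or.inr (Or.inl ⟨hx.1, c2⟩)) (okE _).2
        ((bd _ _ _).union (isBounded_closedBall.union isBounded_closedBall))
      have f2 := ar_union_le (ball 0 ‖u‖ \ ball 0 (‖u‖ - ζ)) (closedBall 0 η ∪ closedBall u ζ)
      have f3 := ar_union_le (closedBall 0 η) (closedBall u ζ)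
      rw [ar_closedBall _ hζ.le, ar_closedBall _ (hζ.le.trans hζη)] at f3
      have f4 : Real.pi * η ^ 2 ≤ 4 * η :=
        mul_le_mul Real.pi_le_four (by nlinarith) (sq_nonneg _) (by norm_num)
      have f5 : Real.pi * ζ ^ 2 ≤ 4 * η :=
        mul_le_mul Real.pi_le_four (by nlinarith) (sq_nonneg _) (by norm_num)
      linarith
    have eA : ar (AA r η u N (s j * ‖u‖)) ≤ a j := by
      have f1 := ann 0 (R := ‖u‖) (R' := ‖u‖ + 3 * η) (d := 3 * η) (m := 31 / 5) n0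
        (by linarith) le_rfl (by linarith)
      have f2 := cov (A := AA r η u N (s j * ‖u‖))
        (B := ball 0 ‖u‖ \ (DD r ∪ ball u (s j * ‖u‖)))
        (C := ball 0 (‖u‖ + 3 * η) \ ball 0 ‖u‖) (fun x hx => by
          by_cases c2 : x ∈ ball (0 : ℂ) ‖u‖
          · exact Or.inl ⟨c2, hx.1.2⟩
          · exact Or.inr ⟨hx.1.1, c2⟩) (bd _ _ _) (bd _ _ _)
      linarith
    exact (mul_le_mul (Real.exp_le_exp.2 (neg_le_neg eE)) (h1.2.1 _ _ _ (ar_nonneg _) eA)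
      (h1.1 _ _ (ar_nonneg _)) (Real.exp_pos _).le).trans (hT j hj).1
  · obtain ⟨-, -, e3⟩ := hA j hj
    obtain ⟨e1, e2⟩ := r1 j hj
    have e4 := s1 (j + 1) hj
    refine (h1.2.1 _ _ _ (ar_nonneg _) ?_).trans (hT j hj).2.1
    have f1 := ann u (d := η) (m := 7) (s0 (j + 1)) e1 e2 (by linarith)
    have f2 := cov (A := BB r c ζ u N (rad n s η u (j + 1)))
      (B := ball u (s (j + 1) * ‖u‖) \ (GG r c ∩ ball 0 ‖u‖))
      (C := (ball 0 ‖u‖ \ ball 0 (‖u‖ - ζ)) ∪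
        (ball u (rad n s η u (j + 1)) \ ball u (s (j + 1) * ‖u‖))) (fun x hx => by
        by_cases c1 : x ∈ ball u (s (j + 1) * ‖u‖)
        · by_cases c2 : x ∈ GG r c ∩ ball 0 ‖u‖
          · exact Or.inr (Or.inl ⟨c2.2, fun h => hx.1.2 ⟨c2.1, h⟩⟩)
          · exact Or.inl ⟨c1, c2⟩
        · exact Or.inr (Or.inr ⟨hx.1.1, c1⟩)) (bd _ _ _) ((bd _ _ _).union (bd _ _ _))
    have f3 := ar_union_le (ball 0 ‖u‖ \ ball 0 (‖u‖ - ζ))
      (ball u (rad n s η u (j + 1)) \ ball u (s (j + 1) * ‖u‖))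
    linarith

end CellP

theorem scell (h1 : STail) (h2 : SPiece) (h3 : SArea) (h4 : SShell) (h5 : SGeo) : SCell := by
  intro k n r c w η ζ ρ₁ ρ₂ θ₁ θ₂ s e a b t M hk hn hζ hζη hη hr hw hρ₁ hρ hρ₂ hc hθ₁ hθ hs0 hs hsn
    hM hA hT O hO hOη
  have hS : 0 ≤ ∑ j ∈ Finset.range n, t (j + 1) * max 0 (M j - M (j + 1)) :=
    Finset.sum_nonneg fun j hj =>
      mul_nonneg (hT j (Finset.mem_range.1 hj)).2.2 (le_max_left _ _)
  have inW : ∀ x ∈ GG r c, x ∈ ball (r : ℂ) w := fun x hx => by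
    have : dist x (r : ℂ) + ‖x‖ ≤ c := hx
    exact mem_ball.2 (by linarith [norm_nonneg x])
  have okU : Ok ((GG r c ∩ Box ρ₁ ρ₂ θ₁ θ₂) \ O) :=
    ⟨((meas_GG r c).inter (CellP.meas_box _ _ _ _)).diff hO,
      (CellP.bdd_box _ _ _ _).subset (sdiff_subset.trans inter_subset_right)⟩
  refine (h2 (ball (r : ℂ) w \ O) _ ζ
    (∑ j ∈ Finset.range n, t (j + 1) * max 0 (M j - M (j + 1)) + n * (80 * ζ))
    (Ev2 k r c w O) (measurableSet_ball.diff hO) okU (fun x hx => ⟨inW x hx.1.1, hx.2⟩) hζ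
    (by positivity) fun u hu => ?_).mono le_rfl ?_ ?_
  · have u3 : r + ‖u‖ ≤ c := by linarith [hu.1.2.2.1]
    exact (CellP.one h1 h4 k n r c w η ζ s e a b t M hζ hζη hη hr hw hs0 hs hsn hM O hO hOη u
      hu.1.1 (hρ₁.trans hu.1.2.1) (hu.1.2.2.1.trans hρ₂) u3 (hA u hu.1.2) hT).mono le_rfl
      (fun S hS ⟨x, _, e1, e2⟩ =>
        h5 k n r c w η ζ s O S u x hk hn hS hOη hζ hζη hr hw hu.1.1 u3 hs0 e1 e2) le_rfl
  · rintro S _ ⟨x, ⟨xS, xD⟩, hE⟩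
    refine ⟨x, ⟨xS, xD, fun xO => ?_⟩, hE⟩
    obtain ⟨v, C, hv, -, hvC, -, -, hx, -⟩ := hE
    have : x ∈ S ∩ ball (r : ℂ) w ∩ O := ⟨⟨xS, inW x xD.1⟩, xO⟩
    rw [hv] at this
    exact hx (this ▸ hvC)
  · have e1 := (ar_mono (sdiff_subset.trans inter_subset_right :
      (GG r c ∩ Box ρ₁ ρ₂ θ₁ θ₂) \ O ⊆ _) (CellP.bdd_box _ _ _ _)).trans
      (h3.2.1 ρ₁ ρ₂ θ₁ θ₂ (by linarith) hρ hθ₁ hθ)
    exact mul_le_mul e1 (by nlinarith) (by positivity) ((ar_nonneg _).trans e1)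

end Pool.Agent.P.MP_50fd71_pr.E8
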