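import Pool.Agent.P.MP_50fd71_pr.E8.Defs

/-!
Convolution and Lipschitz bounds for the Poisson tail, and summation by parts.
-/

open MeasureTheory Set Metric Bornology

noncomputable section

namespace Pool.Agent.P.MP_50fd71_pr.E8

namespace ConvP

theorem binom (m : ℕ) (x y : ℝ) : (x + y) ^ m / m.factorial = ∑ i ∈ Finset.range (m + 1),
    x ^ i / i.factorial * (y ^ (m - i) / (m - i).factorial) := by
  rw [add_pow, Finset.sum_div]
  refine Finset.sum_congr rfl fun i hi => ?_
  have h := Nat.choose_mul_factorial_mul_factorial (Nat.le_of_lt_succ (Finset.mem_range.1 hi))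
  have h1 : (i.factorial : ℝ) ≠ 0 := Nat.cast_ne_zero.2 (Nat.factorial_ne_zero _)
  have h2 : ((m - i).factorial : ℝ) ≠ 0 := Nat.cast_ne_zero.2 (Nat.factorial_ne_zero _)
  have h3 : (m.choose i : ℝ) ≠ 0 := Nat.cast_ne_zero.2
    (Nat.choose_pos (Nat.le_of_lt_succ (Finset.mem_range.1 hi))).ne'
  rw [← h]
  push_cast
  field_simp

theorem conv (k : ℕ) (x y : ℝ) : ∑ i ∈ Finset.range k,
    Real.exp (-x) * x ^ i / i.factorial * T (k - i) y = T k (x + y) - T k x := by
  have h : ∑ n ∈ Finset.range k, (x + y) ^ n / n.factorial = ∑ i ∈ Finset.range k,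
      ∑ j ∈ Finset.range (k - i), x ^ i / i.factorial * (y ^ j / j.factorial) := by
    rw [← Finset.sum_range_diag_flip k fun i j => x ^ i / i.factorial * (y ^ j / j.factorial)]
    exact Finset.sum_congr rfl fun m _ => binom m x y
  unfold T
  rw [h, neg_add, Real.exp_add, Finset.mul_sum, Finset.mul_sum, sub_sub_sub_cancel_left,
    ← Finset.sum_sub_distrib]
  refine Finset.sum_congr rfl fun i _ => ?_
  rw [← Finset.mul_sum]
  ring

theorem tail_le (m : ℕ) (y : ℝ) (hy : 0 ≤ y) : T (m + 1) y ≤ y := by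
  unfold T
  have h1 : (1 : ℝ) ≤ ∑ j ∈ Finset.range (m + 1), y ^ j / j.factorial := by
    rw [Finset.sum_range_succ']
    have : 0 ≤ ∑ j ∈ Finset.range m, y ^ (j + 1) / ((j + 1).factorial : ℝ) :=
      Finset.sum_nonneg fun j _ => by positivity
    simpa using this
  have h2 := Real.add_one_le_exp (-y)
  have h3 := mul_le_mul_of_nonneg_left h1 (Real.exp_pos (-y)).le
  linarith

theorem parts (n : ℕ) (τ M : ℕ → ℝ) : ∑ j ∈ Finset.range n, M j * (τ (j + 1) - τ j) =
    ∑ j ∈ Finset.range n, τ (j + 1) * (M j - M (j + 1)) + τ n * M n - τ 0 * M 0 := by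
  induction n with
  | zero => simp
  | succ n ih =>
    rw [Finset.sum_range_succ, Finset.sum_range_succ, ih]
    ring

end ConvP

open ConvP in
theorem sconv (h : STail) : SConv := by
  refine ⟨conv, fun k x y hx hy => ?_, fun k x hx => ?_, fun n τ t M h0 h1 h2 h3 => ?_⟩
  · have h1 : ∑ i ∈ Finset.range k, Real.exp (-x) * x ^ i / i.factorial * T (k - i) y ≤
        ∑ i ∈ Finset.range k, Real.exp (-x) * (x ^ i / i.factorial) * y := by
      refine Finset.sum_le_sum fun i hi => ?_
      obtain ⟨m, hm⟩ : ∃ m, k - i = m + 1 := ⟨k - i - 1, by have := Finset.mem_range.1 hi; omega⟩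
      rw [hm, mul_div_assoc]
      exact mul_le_mul_of_nonneg_left (tail_le m y hy) (by positivity)
    rw [conv, ← Finset.sum_mul, ← Finset.mul_sum] at h1
    have h2 := h.1 k x hx
    have h3 : Real.exp (-x) * ∑ i ∈ Finset.range k, x ^ i / (i.factorial : ℝ) ≤ 1 := by
      unfold T at h2
      linarith
    have h4 := mul_le_mul_of_nonneg_right h3 hy
    linarith
  · unfold T
    have : 0 ≤ Real.exp (-x) * ∑ j ∈ Finset.range k, x ^ j / (j.factorial : ℝ) :=
      mul_nonneg (Real.exp_pos _).le (Finset.sum_nonneg fun j _ => by positivity)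
    linarith
  · rw [parts, h3]
    have h4 : ∑ j ∈ Finset.range n, τ (j + 1) * (M j - M (j + 1)) ≤
        ∑ j ∈ Finset.range n, t (j + 1) * max 0 (M j - M (j + 1)) := by
      refine Finset.sum_le_sum fun j hj => ?_
      exact le_trans (mul_le_mul_of_nonneg_left (le_max_right _ _) (h0 _))
        (mul_le_mul_of_nonneg_right (h1 j (Finset.mem_range.1 hj)) (le_max_left _ _))
    have h5 := mul_nonneg (h0 0) h2
    linarith

end Pool.Agent.P.MP_50fd71_pr.E8
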