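import Pool.Agent.P.MP_50fd71_pr.E8.Defs

/-! A lower bound for the cosine; the disc and the ellipse in polar coordinates. -/

open MeasureTheory Set Metric Bornology

noncomputable section

namespace Pool.Agent.P.MP_50fd71_pr.E8

namespace CosP

theorem step {f g : ℝ → ℝ} (hd : ∀ y, HasDerivAt f (g y) y) (h0 : f 0 = 0)
    (hg : ∀ y, 0 ≤ y → 0 ≤ g y) (y : ℝ) (hy : 0 ≤ y) : 0 ≤ f y := by
  have hm : MonotoneOn f (Ici 0) :=
    monotoneOn_of_deriv_nonneg (convex_Ici 0)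
      (fun x _ => (hd x).continuousAt.continuousWithinAt)
      (fun x _ => (hd x).differentiableAt.differentiableWithinAt) fun x hx => by
        rw [(hd x).deriv]
        exact hg x (interior_subset hx)
  exact h0 ▸ hm (mem_Ici.2 le_rfl) hy hy

theorem dp (c : ℝ) (n : ℕ) (y : ℝ) :
    HasDerivAt (fun y : ℝ => y ^ (n + 1) / c) ((n + 1 : ℕ) * y ^ n / c) y :=
  (hasDerivAt_pow (n + 1) y).div_const c

theorem s3 (y : ℝ) (hy : 0 ≤ y) : 0 ≤ Real.sin y - y + y ^ 3 / 6 :=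
  step (g := fun y => Real.cos y - 1 + y ^ 2 / 2)
    (fun y => (((Real.hasDerivAt_sin y).sub (hasDerivAt_id y)).add (dp 6 2 y)).congr_deriv
      (by push_cast; ring)) (by simp)
    (fun y _ => by linarith [Real.one_sub_sq_div_two_le_cos (x := y)]) y hy

theorem c4 (y : ℝ) (hy : 0 ≤ y) : 0 ≤ 1 - Real.cos y - y ^ 2 / 2 + y ^ 4 / 24 :=
  step (g := fun y => Real.sin y - y + y ^ 3 / 6)
    (fun y => ((((Real.hasDerivAt_cos y).const_sub 1).sub (dp 2 1 y)).add (dp 24 3 y)).congr_deriv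
      (by push_cast; ring)) (by simp) s3 y hy

theorem s5 (y : ℝ) (hy : 0 ≤ y) : 0 ≤ y - Real.sin y - y ^ 3 / 6 + y ^ 5 / 120 :=
  step (g := fun y => 1 - Real.cos y - y ^ 2 / 2 + y ^ 4 / 24)
    (fun y => ((((hasDerivAt_id y).sub (Real.hasDerivAt_sin y)).sub (dp 6 2 y)).add
      (dp 120 4 y)).congr_deriv (by push_cast; ring)) (by simp) c4 y hy

theorem c6 (y : ℝ) (hy : 0 ≤ y) : 0 ≤ Real.cos y - 1 + y ^ 2 / 2 - y ^ 4 / 24 + y ^ 6 / 720 :=
  step (g := fun y => y - Real.sin y - y ^ 3 / 6 + y ^ 5 / 120)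
    (fun y => (((((Real.hasDerivAt_cos y).sub_const 1).add (dp 2 1 y)).sub (dp 24 3 y)).add
      (dp 720 5 y)).congr_deriv (by push_cast; ring)) (by simp) s5 y hy

theorem s7 (y : ℝ) (hy : 0 ≤ y) : 0 ≤ Real.sin y - y + y ^ 3 / 6 - y ^ 5 / 120 + y ^ 7 / 5040 :=
  step (g := fun y => Real.cos y - 1 + y ^ 2 / 2 - y ^ 4 / 24 + y ^ 6 / 720)
    (fun y => (((((Real.hasDerivAt_sin y).sub (hasDerivAt_id y)).add (dp 6 2 y)).sub
      (dp 120 4 y)).add (dp 5040 6 y)).congr_deriv (by push_cast; ring)) (by simp) c6 y hy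

theorem c8 (y : ℝ) (hy : 0 ≤ y) :
    0 ≤ 1 - Real.cos y - y ^ 2 / 2 + y ^ 4 / 24 - y ^ 6 / 720 + y ^ 8 / 40320 :=
  step (g := fun y => Real.sin y - y + y ^ 3 / 6 - y ^ 5 / 120 + y ^ 7 / 5040)
    (fun y => ((((((Real.hasDerivAt_cos y).const_sub 1).sub (dp 2 1 y)).add (dp 24 3 y)).sub
      (dp 720 5 y)).add (dp 40320 7 y)).congr_deriv (by push_cast; ring)) (by simp) s7 y hy

theorem s9 (y : ℝ) (hy : 0 ≤ y) :
    0 ≤ y - Real.sin y - y ^ 3 / 6 + y ^ 5 / 120 - y ^ 7 / 5040 + y ^ 9 / 362880 :=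
  step (g := fun y => 1 - Real.cos y - y ^ 2 / 2 + y ^ 4 / 24 - y ^ 6 / 720 + y ^ 8 / 40320)
    (fun y => ((((((hasDerivAt_id y).sub (Real.hasDerivAt_sin y)).sub (dp 6 2 y)).add
      (dp 120 4 y)).sub (dp 5040 6 y)).add (dp 362880 8 y)).congr_deriv (by push_cast; ring))
    (by simp) c8 y hy

theorem c10 (y : ℝ) (hy : 0 ≤ y) :
    0 ≤ Real.cos y - 1 + y ^ 2 / 2 - y ^ 4 / 24 + y ^ 6 / 720 - y ^ 8 / 40320 + y ^ 10 / 3628800 :=
  step (g := fun y => y - Real.sin y - y ^ 3 / 6 + y ^ 5 / 120 - y ^ 7 / 5040 + y ^ 9 / 362880)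
    (fun y => (((((((Real.hasDerivAt_cos y).sub_const 1).add (dp 2 1 y)).sub (dp 24 3 y)).add
      (dp 720 5 y)).sub (dp 40320 7 y)).add (dp 3628800 9 y)).congr_deriv (by push_cast; ring))
    (by simp) s9 y hy

theorem dist_sq (u : ℂ) (r : ℝ) : dist u (r : ℂ) ^ 2 = ‖u‖ ^ 2 - 2 * r * u.re + r ^ 2 := by
  rw [Complex.dist_eq, Complex.sq_norm, Complex.sq_norm, Complex.normSq_apply, Complex.normSq_apply]
  simp
  ring

theorem pol_norm {t : ℝ} (ht : 0 ≤ t) (φ : ℝ) : ‖(t : ℂ) * Complex.exp (φ * Complex.I)‖ = t := by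
  rw [norm_mul, Complex.norm_exp_ofReal_mul_I, mul_one, Complex.norm_real, Real.norm_of_nonneg ht]

theorem pol_re (t φ : ℝ) : ((t : ℂ) * Complex.exp (φ * Complex.I)).re = t * Real.cos φ := by
  rw [Complex.re_ofReal_mul, Complex.exp_ofReal_mul_I_re]

theorem cos_ge {φ δ : ℝ} (h : |φ| ≤ δ) (h' : δ ≤ Real.pi) : Real.cos δ ≤ Real.cos φ := by
  rw [← Real.cos_abs φ]
  exact Real.cos_le_cos_of_nonneg_of_le_pi (abs_nonneg _) h' h

end CosP

open CosP

theorem scos : SCos := by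
  refine ⟨fun y hy => by linarith [c10 y hy], fun r t t' φ δ hr ht htt h1 h2 h3 => ?_,
    fun r c t t' φ γ hr hc ht htt htc h1 h2 h3 => ?_, fun r c ρ θ y u hr hc hu h0 h1 h2 h3 h4 => ?_⟩
  · have e := dist_sq ((t : ℂ) * Complex.exp (φ * Complex.I)) r
    rw [pol_norm ht, pol_re] at e
    have h4 := cos_ge h1 h2
    have h5 : t ≤ 2 * r * Real.cos φ := by nlinarith
    refine mem_closedBall.2 (le_of_sq_le_sq ?_ hr.le)
    nlinarith [mul_le_mul_of_nonneg_left h5 ht]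
  · have e := dist_sq ((t : ℂ) * Complex.exp (φ * Complex.I)) r
    rw [pol_norm ht, pol_re] at e
    have h4 := cos_ge h1 h2
    have h5 : 0 ≤ c - r * Real.cos γ := by nlinarith [Real.cos_le_one γ]
    have h6 : t * (c - r * Real.cos φ) ≤ t' * (c - r * Real.cos γ) :=
      (mul_le_mul_of_nonneg_left (by nlinarith) ht).trans (mul_le_mul_of_nonneg_right htt h5)
    show dist _ _ + _ ≤ c
    rw [pol_norm ht, ← le_sub_iff_add_le]
    refine le_of_sq_le_sq ?_ (by linarith)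
    nlinarith
  · by_contra hh
    have h5 : Real.cos y ≤ -Real.cos u.arg := by
      rw [← Real.cos_abs u.arg, ← Real.cos_pi_sub]
      exact Real.cos_le_cos_of_nonneg_of_le_pi (by linarith [Complex.abs_arg_le_pi u]) h3
        (by linarith [not_le.1 hh])
    have e := dist_sq u r
    rw [← Complex.norm_mul_cos_arg] at e
    have h6 : dist u (r : ℂ) ≤ c - ‖u‖ := le_sub_iff_add_le.2 hu
    have h7 := pow_le_pow_left₀ dist_nonneg h6 2
    have h8 : 0 ≤ c + r * Real.cos y := by nlinarith [Real.neg_one_le_cos y]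
    have h9 : ρ * (c + r * Real.cos y) ≤ ‖u‖ * (c - r * Real.cos u.arg) :=
      (mul_le_mul_of_nonneg_right h1 h8).trans
        (mul_le_mul_of_nonneg_left (by nlinarith) (norm_nonneg u))
    nlinarith

end Pool.Agent.P.MP_50fd71_pr.E8
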