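import Pool.Agent.P.MP_50fd71_pr.Basic

/-!
A sharper local estimate: definitions, and the steps of the proof as propositions.
-/

open MeasureTheory Set Metric Bornology

noncomputable section

namespace Pool.Agent.P.MP_50fd71_pr.E8

/-- the ellipse with foci `0` and `r` -/
def GG (r c : ℝ) : Set ℂ := {x | dist x (r : ℂ) + ‖x‖ ≤ c}

lemma meas_GG (r c : ℝ) : MeasurableSet (GG r c) :=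
  (isClosed_le (by fun_prop) continuous_const).measurableSet

/-- Convolution and Lipschitz bounds for the Poisson tail, and summation by parts. -/
def SConv : Prop :=
  (∀ (k : ℕ) (x y : ℝ), ∑ i ∈ Finset.range k,
      Real.exp (-x) * x ^ i / i.factorial * T (k - i) y = T k (x + y) - T k x) ∧
    (∀ (k : ℕ) (x y : ℝ), 0 ≤ x → 0 ≤ y → T k (x + y) ≤ T k x + y) ∧
    (∀ (k : ℕ) (x : ℝ), 0 ≤ x → T k x ≤ 1) ∧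
    ∀ (n : ℕ) (τ t M : ℕ → ℝ), (∀ j, 0 ≤ τ j) → (∀ j < n, τ (j + 1) ≤ t (j + 1)) → 0 ≤ M 0 →
      M n = 0 → ∑ j ∈ Finset.range n, M j * (τ (j + 1) - τ j) ≤
        ∑ j ∈ Finset.range n, t (j + 1) * max 0 (M j - M (j + 1))

/-- the `k`-th point lies in the shell `j`, `E j` is empty, and `A j` has `k` other points -/
def Sh (k n : ℕ) (E A P Q : ℕ → Set ℂ) (S : Set ℂ) : Prop :=
  ∃ j < n, cnt S (P j) < k ∧ S ∩ E j = ∅ ∧ Two S (A j) k (Q j \ P j) (k - cnt S (P j))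

/-- Summation over the shells. -/
def SShell : Prop :=
  ∀ (k n : ℕ) (W : Set ℂ) (E A P Q : ℕ → Set ℂ) (δ : ℝ) (t M : ℕ → ℝ), 0 ≤ δ → M n = 0 →
    (∀ j, Ok (E j) ∧ Ok (A j) ∧ Ok (P j) ∧ Ok (Q j)) →
    (∀ j < n, E j ⊆ W ∧ A j ⊆ W ∧ Q j ⊆ W ∧ P j ⊆ Q j ∧ P j ⊆ P (j + 1)) →
    (∀ j < n, Disjoint (E j) (A j) ∧ Disjoint (E j) (Q j) ∧ Disjoint (A j) (P j)) →
    (∀ j < n, ar (Q j) ≤ ar (P (j + 1)) + δ ∧ Real.exp (-ar (E j)) * T k (ar (A j)) ≤ M j ∧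
      T k (ar (P (j + 1))) ≤ t (j + 1)) →
    UB W (Sh k n E A P Q)
      (∑ j ∈ Finset.range n, t (j + 1) * max 0 (M j - M (j + 1)) + n * δ)

/-- radii of the shells -/
def rad (n : ℕ) (s : ℕ → ℝ) (η : ℝ) (u : ℂ) (j : ℕ) : ℝ := if j < n then s j * ‖u‖ else ‖u‖ + η

/-- the empty region -/
def EE (r c ζ : ℝ) (u : ℂ) (N : Set ℂ) (σ : ℝ) : Set ℂ :=
  (ball 0 (‖u‖ - ζ) ∩ (DD r ∪ (GG r c ∩ ball u σ))) \ N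

/-- the region of the cluster points -/
def AA (r η : ℝ) (u : ℂ) (N : Set ℂ) (σ : ℝ) : Set ℂ :=
  (ball 0 (‖u‖ + 3 * η) \ (DD r ∪ ball u σ)) \ N

/-- the region of the other points -/
def BB (r c ζ : ℝ) (u : ℂ) (N : Set ℂ) (σ : ℝ) : Set ℂ :=
  (ball u σ \ (GG r c ∩ ball 0 (‖u‖ - ζ))) \ N

/-- `x` is outside the cluster, and all points of the ellipse of smaller norm are inside -/
def Ev2 (k : ℕ) (r c w : ℝ) (O S : Set ℂ) (x : ℂ) : Prop :=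
  ∃ v C, S ∩ ball (r : ℂ) w ∩ O = {v} ∧ Cl k S C ∧ v ∈ C ∧ Disjoint C (DD r) ∧ x ∈ S ∧ x ∉ C ∧
    ∀ y ∈ S ∩ GG r c, ‖y‖ < ‖x‖ → y ∈ C

/-- The deterministic step. -/
def SGeo : Prop :=
  ∀ (k n : ℕ) (r c w η ζ : ℝ) (s : ℕ → ℝ) (O S : Set ℂ) (u x : ℂ), 0 < k → 0 < n → LF S →
    O ⊆ closedBall 0 η → 0 < ζ → ζ ≤ η → 0 < r → c + 5 * η ≤ w → u ∈ GG r c → r + ‖u‖ ≤ c →
    s 0 = 0 →
    S ∩ (ball (r : ℂ) w \ O) ∩ closedBall u ζ = {x} → Ev2 k r c w O S x →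
    Sh k n (fun j => EE r c ζ u (O ∪ closedBall u ζ) (rad n s η u j))
      (fun j => AA r η u (O ∪ closedBall u ζ) (rad n s η u j))
      (fun j => BB r c ζ u (O ∪ closedBall u ζ) (rad n s η u j))
      (fun j => BB r c ζ u (O ∪ closedBall u ζ) (rad n s η u (j + 1) + 4 * ζ)) S

/-- bound for the event that the nearest point outside the cluster lies in a box -/
def Cell (k : ℕ) (r c w η ρ₁ ρ₂ θ₁ θ₂ p : ℝ) : Prop :=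
  ∀ O : Set ℂ, MeasurableSet O → O ⊆ closedBall 0 η → UB (ball (r : ℂ) w \ O)
    (fun S => ∃ x ∈ S ∩ (GG r c ∩ Box ρ₁ ρ₂ θ₁ θ₂), Ev2 k r c w O S x) p

lemma Cell.mono {k : ℕ} {r c w η ρ₁ ρ₂ θ₁ θ₂ p p' : ℝ} (h : Cell k r c w η ρ₁ ρ₂ θ₁ θ₂ p)
    (hp : p ≤ p') : Cell k r c w η ρ₁ ρ₂ θ₁ θ₂ p' :=
  fun O a b => (h O a b).mono le_rfl (fun _ _ h => h) hp

lemma Cell.add_ang {k : ℕ} {r c w η ρ₁ ρ₂ θ₁ θ₂ θ₃ p p' : ℝ} (h : Cell k r c w η ρ₁ ρ₂ θ₁ θ₂ p)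
    (h' : Cell k r c w η ρ₁ ρ₂ θ₂ θ₃ p') : Cell k r c w η ρ₁ ρ₂ θ₁ θ₃ (p + p') :=
  fun O a b => ((h O a b).or (h' O a b)).mono le_rfl
    (fun _ _ ⟨x, ⟨h1, h2, h3, h4, h5, h6⟩, h7⟩ => (le_total |x.arg| θ₂).imp
      (fun h8 => ⟨x, ⟨h1, h2, h3, h4, h5, h8⟩, h7⟩) fun h8 => ⟨x, ⟨h1, h2, h3, h4, h8, h6⟩, h7⟩)
    le_rfl

lemma Cell.add_rad {k : ℕ} {r c w η ρ₁ ρ₂ ρ₃ θ₁ θ₂ p p' : ℝ} (h : Cell k r c w η ρ₁ ρ₂ θ₁ θ₂ p)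
    (h' : Cell k r c w η ρ₂ ρ₃ θ₁ θ₂ p') : Cell k r c w η ρ₁ ρ₃ θ₁ θ₂ (p + p') :=
  fun O a b => ((h O a b).or (h' O a b)).mono le_rfl
    (fun _ _ ⟨x, ⟨h1, h2, h3, h4, h5, h6⟩, h7⟩ => (le_total ‖x‖ ρ₂).imp
      (fun h8 => ⟨x, ⟨h1, h2, h3, h8, h5, h6⟩, h7⟩) fun h8 => ⟨x, ⟨h1, h2, h8, h4, h5, h6⟩, h7⟩)
    le_rfl

lemma Cell.cover {k : ℕ} {r c w η ρ₁ ρ₂ θ p : ℝ} (h : Cell k r c w η ρ₁ ρ₂ 0 θ p)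
    (h' : ∀ u ∈ GG r c, ρ₁ ≤ ‖u‖ → |u.arg| ≤ θ) : Cell k r c w η ρ₁ ρ₂ 0 4 p :=
  fun O a b => (h O a b).mono le_rfl
    (fun _ _ ⟨x, ⟨h1, h2, h3, h4, h5, _⟩, h7⟩ => ⟨x, ⟨h1, h2, h3, h4, h5, h' x h2 h3⟩, h7⟩) le_rfl

/-- The contribution of one box. -/
def SCell : Prop :=
  ∀ (k n : ℕ) (r c w η ζ ρ₁ ρ₂ θ₁ θ₂ : ℝ) (s e a b t M : ℕ → ℝ), 0 < k → 0 < n → 0 < ζ → ζ ≤ η →
    η ≤ 1 / 100 → 0 < r → c + 5 * η ≤ w → η ≤ ρ₁ → ρ₁ ≤ ρ₂ → ρ₂ ≤ 3 → r + ρ₂ ≤ c → 0 ≤ θ₁ →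
    θ₁ ≤ θ₂ → s 0 = 0 → Monotone s → s n = 1 → M n = 0 →
    (∀ u ∈ Box ρ₁ ρ₂ θ₁ θ₂, ∀ j < n,
      e j ≤ max 0 (ar (ball 0 ‖u‖ ∩ (DD r ∪ (GG r c ∩ ball u (s j * ‖u‖)))) - 60 * η) ∧
      ar (ball 0 ‖u‖ \ (DD r ∪ ball u (s j * ‖u‖))) + 60 * η ≤ a j ∧
      ar (ball u (s (j + 1) * ‖u‖) \ (GG r c ∩ ball 0 ‖u‖)) + 60 * η ≤ b (j + 1)) →
    (∀ j < n, Real.exp (-e j) * T k (a j) ≤ M j ∧ T k (b (j + 1)) ≤ t (j + 1) ∧ 0 ≤ t (j + 1)) →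
    Cell k r c w η ρ₁ ρ₂ θ₁ θ₂ ((ρ₂ ^ 2 - ρ₁ ^ 2) * (θ₂ - θ₁) *
      (∑ j ∈ Finset.range n, t (j + 1) * max 0 (M j - M (j + 1)) + (80 * n + 5) * ζ))

/-- From the boxes to the local estimate. -/
def SSum : Prop :=
  ∀ (k : ℕ) (r c w η ρ₁ ρ₂ l a p : ℝ), 0 < η → 0 < r → 0 ≤ ρ₁ → ρ₁ ≤ ρ₂ → r + ρ₂ ≤ c →
    c + 5 * η ≤ w → l ≤ max 0 (ar (DD r ∩ ball 0 ρ₂) - 7 * η ^ 2) →
    Real.pi * (ρ₁ + 2 * η) ^ 2 ≤ a → Cell k r c w η ρ₁ ρ₂ 0 4 p →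
    Loc k r w η (Real.exp (-l) + T k a + p)

/-- Lower bounds for areas by annular sectors. -/
def SSect : Prop :=
  ∀ (K H : Set ℂ) (N : ℕ) (u : ℂ) (s θ₁ θ₂ : ℝ) (δ γ β : ℕ → ℝ), 0 < N → u ≠ 0 → 0 ≤ s →
    0 ≤ θ₁ → θ₁ ≤ |u.arg| → |u.arg| ≤ θ₂ →
    (∀ i < N, 0 ≤ δ i ∧ δ i ≤ Real.pi ∧ 0 ≤ γ i ∧ γ i ≤ Real.pi ∧ 0 ≤ β i ∧ β i ≤ Real.pi) →
    (∀ i < N, ∀ t φ : ℝ, 0 < t → t < ‖u‖ * (i + 1) / N →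
      (|φ| < δ i → (t : ℂ) * Complex.exp (φ * Complex.I) ∈ K) ∧
      (|φ| < γ i → (t : ℂ) * Complex.exp (φ * Complex.I) ∈ H)) →
    (∀ i < N, β i = 0 ∨ (((i : ℝ) / N) ^ 2 + 1 ≤ s ^ 2 + 2 * ((i : ℝ) / N) * Real.cos (β i) ∧
      (((i : ℝ) + 1) / N) ^ 2 + 1 ≤ s ^ 2 + 2 * (((i : ℝ) + 1) / N) * Real.cos (β i))) →
    ‖u‖ ^ 2 * ∑ i ∈ Finset.range N, (2 * (i : ℝ) + 1) / (2 * N ^ 2) * (2 * δ i +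
        (if θ₂ < δ i + β i then max 0 (min (γ i) (θ₁ + β i) - δ i) else 0) +
        max 0 (min (γ i) (β i - θ₂) - δ i)) ≤
        ar (ball 0 ‖u‖ ∩ (K ∪ (H ∩ ball u (s * ‖u‖)))) ∧
      ‖u‖ ^ 2 * ∑ i ∈ Finset.range N, (2 * (i : ℝ) + 1) / (2 * N ^ 2) *
        max 0 (min (β i) (γ i + θ₁) + min (β i) (γ i - θ₂)) ≤
        ar (ball u (s * ‖u‖) ∩ (H ∩ ball 0 ‖u‖))

/-- A lower bound for the cosine, and the disc and the ellipse in polar coordinates. -/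
def SCos : Prop :=
  (∀ y : ℝ, 0 ≤ y →
      1 - y ^ 2 / 2 + y ^ 4 / 24 - y ^ 6 / 720 + y ^ 8 / 40320 - y ^ 10 / 3628800 ≤ Real.cos y) ∧
    (∀ r t t' φ δ : ℝ, 0 < r → 0 ≤ t → t ≤ t' → |φ| ≤ δ → δ ≤ Real.pi →
      t' ≤ 2 * r * Real.cos δ → (t : ℂ) * Complex.exp (φ * Complex.I) ∈ DD r) ∧
    (∀ r c t t' φ γ : ℝ, 0 < r → r ≤ c → 0 ≤ t → t ≤ t' → t' ≤ c → |φ| ≤ γ → γ ≤ Real.pi →
      2 * t' * (c - r * Real.cos γ) ≤ c ^ 2 - r ^ 2 →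
      (t : ℂ) * Complex.exp (φ * Complex.I) ∈ GG r c) ∧
    ∀ (r c ρ θ y : ℝ) (u : ℂ), 0 < r → r ≤ c → u ∈ GG r c → 0 ≤ ρ → ρ ≤ ‖u‖ → Real.pi - θ ≤ y →
      y ≤ Real.pi → c ^ 2 - r ^ 2 < 2 * ρ * (c + r * Real.cos y) → |u.arg| ≤ θ

/-- upper bound of `2 ^ 32 * exp (-g / 128)` -/
def exU (g : ℕ) : ℕ := (4261543596 ^ g * 2 ^ 32) / 2 ^ (32 * g) + 1

/-- head of the exponential series at `g / 128`, times `5040 * 128 ^ 7` -/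
def pn (g : ℕ) : ℕ :=
  5040 * 128 ^ 7 + g * (5040 * 128 ^ 6 + g * (2520 * 128 ^ 5 + g * (840 * 128 ^ 4 +
    g * (210 * 128 ^ 3 + g * (42 * 128 ^ 2 + g * (7 * 128 + g))))))

/-- upper bound of `2 ^ 32 * T 8 (g / 128)` -/
def tU (g : ℕ) : ℕ :=
  2 ^ 32 - (4261543593 ^ g * pn g * 2 ^ 32) / 2 ^ (32 * g) / (5040 * 128 ^ 7)

/-- Bounds for the exponential and the tail on a grid. -/
def SExp : Prop :=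
  ∀ g : ℕ, Real.exp (-((g : ℝ) / 128)) ≤ (exU g : ℝ) / 2 ^ 32 ∧
    T 8 ((g : ℝ) / 128) ≤ (tU g : ℝ) / 2 ^ 32

end Pool.Agent.P.MP_50fd71_pr.E8
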