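import Pool.Agent.P.MP_50fd71_pr.E8.Defs

/-! Bounds for the exponential and the Poisson tail on a grid. -/

open MeasureTheory Set Metric Bornology

noncomputable section

namespace Pool.Agent.P.MP_50fd71_pr.E8

namespace ExpP

lemma base : (4261543593 : ℝ) / 2 ^ 32 ≤ Real.exp (-(1 / 128)) ∧
    Real.exp (-(1 / 128)) ≤ (4261543596 : ℝ) / 2 ^ 32 := by
  have h := Real.exp_bound (x := -(1 / 128)) (by rw [abs_neg, abs_of_pos] <;> norm_num)
    (n := 5) (by norm_num)
  rw [abs_neg, abs_of_pos (by norm_num : (0 : ℝ) < 1 / 128), abs_le] at h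
  simp only [Finset.sum_range_succ, Finset.sum_range_zero, Nat.factorial] at h
  constructor
  · linarith [h.1, h.2]
  · linarith [h.1, h.2]

lemma exp_pow (g : ℕ) : Real.exp (-((g : ℝ) / 128)) = Real.exp (-(1 / 128)) ^ g := by
  rw [← Real.exp_nat_mul]
  congr 1
  ring

lemma pn_eq (g : ℕ) : (pn g : ℝ) =
    5040 * 128 ^ 7 * ∑ j ∈ Finset.range 8, ((g : ℝ) / 128) ^ j / j.factorial := by
  simp only [pn, Finset.sum_range_succ, Finset.sum_range_zero, Nat.factorial]
  push_cast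
  ring

end ExpP

open ExpP in
theorem sexp : SExp := by
  intro g
  have hg : (0 : ℝ) < 2 ^ (32 * g) := by positivity
  constructor
  · have h1 : Real.exp (-((g : ℝ) / 128)) ≤ ((4261543596 : ℝ) / 2 ^ 32) ^ g := by
      rw [exp_pow]
      exact pow_le_pow_left₀ (Real.exp_pos _).le base.2 g
    refine h1.trans ?_
    have h2 : 4261543596 ^ g * 2 ^ 32 < exU g * 2 ^ (32 * g) := by
      unfold exU
      rw [add_mul, one_mul]
      exact Nat.lt_div_mul_add (by positivity)
    have h3 : (4261543596 : ℝ) ^ g * 2 ^ 32 < exU g * 2 ^ (32 * g) := by exact_mod_cast h2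
    rw [div_pow, ← pow_mul, div_le_div_iff₀ hg (by positivity)]
    exact h3.le
  · have h1 : ((4261543593 : ℝ) / 2 ^ 32) ^ g ≤ Real.exp (-((g : ℝ) / 128)) := by
      rw [exp_pow]
      exact pow_le_pow_left₀ (by positivity) base.1 g
    have h2 : (((4261543593 ^ g * pn g * 2 ^ 32) / 2 ^ (32 * g) / (5040 * 128 ^ 7) : ℕ) : ℝ) ≤
        2 ^ 32 * (((4261543593 : ℝ) / 2 ^ 32) ^ g *
          ∑ j ∈ Finset.range 8, ((g : ℝ) / 128) ^ j / j.factorial) := by
      refine Nat.cast_div_le.trans ?_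
      refine (div_le_div_of_nonneg_right Nat.cast_div_le (by positivity)).trans (le_of_eq ?_)
      push_cast
      rw [pn_eq, div_pow, ← pow_mul]
      field_simp
      ring
    have h3 : (2 : ℝ) ^ 32 -
        (((4261543593 ^ g * pn g * 2 ^ 32) / 2 ^ (32 * g) / (5040 * 128 ^ 7) : ℕ) : ℝ) ≤ tU g := by
      unfold tU
      generalize (4261543593 ^ g * pn g * 2 ^ 32) / 2 ^ (32 * g) / (5040 * 128 ^ 7) = m
      have : (2 ^ 32 : ℕ) ≤ (2 ^ 32 - m) + m := le_tsub_add
      have h : ((2 ^ 32 : ℕ) : ℝ) ≤ ((2 ^ 32 - m : ℕ) : ℝ) + m := by exact_mod_cast this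
      rw [Nat.cast_pow, Nat.cast_ofNat] at h
      linarith
    have h4 : 0 ≤ ∑ j ∈ Finset.range 8, ((g : ℝ) / 128) ^ j / j.factorial := by positivity
    have h5 := mul_le_mul_of_nonneg_right h1 h4
    rw [le_div_iff₀ (by positivity)]
    unfold T
    linarith

end Pool.Agent.P.MP_50fd71_pr.E8
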