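import Pool.Agent.P.MP_50fd71_pr.E8.Defs

/-!
The deterministic step of the sharper local estimate.
-/

open MeasureTheory Set Metric Bornology

noncomputable section

namespace Pool.Agent.P.MP_50fd71_pr.E8

namespace GeoP

lemma BB_mono {r c ζ : ℝ} {u : ℂ} {N : Set ℂ} {σ σ' : ℝ} (h : σ ≤ σ') :
    BB r c ζ u N σ ⊆ BB r c ζ u N σ' :=
  fun _ hy => ⟨⟨ball_subset_ball h hy.1.1, hy.1.2⟩, hy.2⟩

lemma BB_fin {S : Set ℂ} (hS : LF S) (r c ζ : ℝ) (u : ℂ) (N : Set ℂ) (σ : ℝ) :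
    (S ∩ BB r c ζ u N σ).Finite :=
  hS _ (isBounded_ball.subset fun _ hy => hy.1.1)

/-- Choice of the second family of points. -/
lemma pick {S A P Q B : Set ℂ} {k : ℕ} {X : Finset ℂ} (hX : X.card = k) (hA : ↑X ⊆ S ∩ A)
    (hP : (S ∩ P).Finite) (hB : B.Finite) (hk : k ≤ B.ncard) (hQ : B ⊆ S ∩ Q)
    (hd : ∀ z ∈ X, z ∉ B) : Two S A k (Q \ P) (k - cnt S P) := by
  have h1 : B.ncard ≤ (B \ P).ncard + (S ∩ P).ncard :=
    (ncard_le_ncard (t := (B \ P) ∪ (S ∩ P)) (fun y hy => by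
      by_cases e : y ∈ P
      · exact Or.inr ⟨(hQ hy).1, e⟩
      · exact Or.inl ⟨hy, e⟩) (hB.sdiff.union hP)).trans (ncard_union_le _ _)
  have hf : (B \ P).Finite := hB.sdiff
  obtain ⟨Z, z1, z2⟩ := Finset.exists_subset_card_eq (s := hf.toFinset) (n := k - cnt S P) (by
    rw [← ncard_eq_toFinset_card _ hf]
    unfold cnt
    omega)
  have z3 : ∀ y ∈ Z, y ∈ B \ P := fun y hy => hf.mem_toFinset.1 (z1 hy)
  exact ⟨X, Z, Finset.disjoint_left.2 fun y a b => hd y a (z3 y b).1, hX, z2, hA,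
    fun y hy => ⟨(hQ (z3 y hy).1).1, (hQ (z3 y hy).1).2, (z3 y hy).2⟩⟩

end GeoP

open GeoP

theorem sgeo (h : SCore) : SGeo := by
  intro k n r c w η ζ s O S u x hk hn hS hO hζ hζη hr hw hu hru hs0 hx
    ⟨v, C, hv, hC, hvC, hD, hxS, hxC, hG⟩
  have hxu : dist x u ≤ ζ := (hx.symm.subset rfl).2
  have hv0 : ‖v‖ ≤ η := by simpa using hO (hv.symm.subset rfl).2
  have hN : ∀ y ∈ S, dist y (r : ℂ) < w → y ≠ v → y ≠ x → y ∉ O ∪ closedBall u ζ := by
    intro y a b c1 c2 e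
    by_cases f : y ∈ O
    · exact c1 (hv.subset ⟨⟨a, b⟩, f⟩)
    · exact c2 (hx.subset ⟨⟨a, b, f⟩, e.resolve_left f⟩)
  generalize O ∪ closedBall u ζ = N at *
  have hn1 : |‖x‖ - ‖u‖| ≤ ζ := (abs_norm_sub_norm_le x u).trans (by rwa [← dist_eq_norm])
  obtain ⟨hn2, hn3⟩ := abs_le.1 hn1
  have hvx : dist v x ≤ ‖v‖ + ‖x‖ := by rw [dist_eq_norm]; exact norm_sub_le _ _
  have hu0 := norm_nonneg u
  have hug : dist u (r : ℂ) + ‖u‖ ≤ c := hu
  have hrn : ‖(r : ℂ)‖ = r := by simp [hr.le]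
  obtain ⟨X, -, hX, -, hX1, -⟩ := h k S C v x hS hC hvC hxS hxC
  have hXn : ∀ z ∈ X, z ∈ C ∧ ‖z‖ < ‖u‖ + 3 * η ∧ z ∉ N := by
    intro z hz
    obtain ⟨⟨a, b⟩, e⟩ := hX1 hz
    have b' : dist z v < dist v x := b
    have f : ‖z‖ ≤ dist z v + ‖v‖ := by simpa using dist_triangle z v 0
    have g : dist z (r : ℂ) ≤ ‖z‖ + r := by
      rw [dist_eq_norm]; exact (norm_sub_le _ _).trans (by rw [hrn])
    exact ⟨a, by linarith, hN z (hC.1 a) (by linarith) e fun q => hxC (q ▸ a)⟩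
  obtain ⟨x', ⟨hx1, -⟩, hx2⟩ := exists_min_image (C ∩ ball 0 (‖u‖ + 3 * η)) (fun z => dist z x)
    ((hS _ isBounded_ball).subset fun z hz => ⟨hC.1 hz.1, hz.2⟩)
    ⟨v, hvC, by rw [mem_ball_zero_iff]; linarith⟩
  have hmin : ∀ z ∈ C, ‖z‖ < ‖u‖ + 3 * η → dist x' x ≤ dist z x := fun z a b =>
    hx2 z ⟨a, mem_ball_zero_iff.2 b⟩
  have hσ := hmin v hvC (by linarith)
  obtain ⟨-, Y, -, hY, -, hY1⟩ := h k S C x' x hS hC hx1 hxS hxC
  generalize dist x' x = σ at *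
  have hYn : ∀ y ∈ Y, y ∉ C ∧ dist y u < σ + ζ ∧ ∀ τ, dist y u < τ → y ∈ S ∩ BB r c ζ u N τ := by
    intro y hy
    obtain ⟨⟨⟨a, b⟩, e⟩, f⟩ := hY1 hy
    have e' : dist y x < σ := e
    have g := dist_triangle y x u
    have g' := dist_triangle y u (r : ℂ)
    refine ⟨b, by linarith, fun τ hτ => ⟨a, ⟨hτ, fun q => b (hG y ⟨a, q.1⟩ ?_)⟩,
      hN y a (by linarith) (fun q => b (q ▸ hvC)) f⟩⟩
    have := mem_ball_zero_iff.1 q.2
    linarith
  have hYc : ∀ τ, (∀ y ∈ Y, dist y u < τ) → k ≤ cnt S (BB r c ζ u N τ) := fun τ hτ => by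
    rw [← hY, ← ncard_coe_finset]
    exact ncard_le_ncard (fun y hy => (hYn y hy).2.2 τ (hτ y hy)) (BB_fin hS ..)
  have hex : ∃ j, k ≤ cnt S (BB r c ζ u N (rad n s η u (j + 1) + 2 * ζ)) ∧ j < n := by
    refine ⟨n - 1, hYc _ fun y hy => ?_, by omega⟩
    have := (hYn y hy).2.1
    rw [Nat.sub_add_cancel hn, rad, if_neg (lt_irrefl n)]
    linarith
  classical
  obtain ⟨hj1, hj2⟩ := Nat.find_spec hex
  have hj3 := fun m => Nat.find_min hex (m := m)
  generalize Nat.find hex = j at *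
  have key : (∀ z ∈ C, ‖z‖ < ‖u‖ + 3 * η → z ∉ ball u (rad n s η u j)) ∧
      cnt S (BB r c ζ u N (rad n s η u j)) < k := by
    rcases Nat.eq_zero_or_pos j with rfl | hj
    · have e : rad n s η u 0 = 0 := by rw [rad, if_pos hn, hs0, zero_mul]
      rw [e]
      refine ⟨fun z _ _ => by simp, ?_⟩
      simpa [cnt, BB] using hk
    · have e := hj3 (j - 1) (by omega)
      rw [Nat.sub_add_cancel hj, not_and_or, not_le] at e
      have e1 := e.resolve_right (by omega)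
      constructor
      · intro z a b f
        refine absurd (hYc _ fun y hy => ?_) e1.not_ge
        have f' : dist z u < rad n s η u j := f
        have g := dist_triangle z u x
        rw [dist_comm u x] at g
        linarith [(hYn y hy).2.1, hmin z a b]
      · exact (ncard_le_ncard (inter_subset_inter_right _ (BB_mono (by linarith)))
          (BB_fin hS ..)).trans_lt e1
  refine ⟨j, hj2, key.2, ?_, ?_⟩
  · refine eq_empty_iff_forall_notMem.2 fun y ⟨a, ⟨b, e⟩, _⟩ => ?_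
    have b' := mem_ball_zero_iff.1 b
    rcases e with e | e
    · have e' : dist y (r : ℂ) ≤ r := e
      exact disjoint_left.1 hD (hG y ⟨a, show dist y (r : ℂ) + ‖y‖ ≤ c by linarith⟩ (by linarith)) e
    · exact key.1 y (hG y ⟨a, e.1⟩ (by linarith)) (by linarith) e.2
  have hA : ↑X ⊆ S ∩ AA r η u N (rad n s η u j) := fun z hz => by
    obtain ⟨a, b, e⟩ := hXn z hz
    exact ⟨hC.1 a, ⟨mem_ball_zero_iff.2 b,
      fun q => q.elim (disjoint_left.1 hD a) (key.1 z a b)⟩, e⟩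
  by_cases hc : ∀ z ∈ X, z ∉ ball u (rad n s η u (j + 1) + 2 * ζ)
  · exact pick hX hA (BB_fin hS ..) (BB_fin hS ..) hj1
      (inter_subset_inter_right _ (BB_mono (by linarith))) fun z a b => hc z a b.2.1.1
  · simp only [not_forall, not_not] at hc
    obtain ⟨z, a, b⟩ := hc
    have b' : dist z u < rad n s η u (j + 1) + 2 * ζ := b
    have g := dist_triangle z u x
    rw [dist_comm u x] at g
    have g' := hmin z (hXn z a).1 (hXn z a).2.1
    exact pick (B := ↑Y) hX hA (BB_fin hS ..) Y.finite_toSet (by rw [ncard_coe_finset, hY])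
      (fun y hy => (hYn y hy).2.2 _ (by linarith [(hYn y hy).2.1]))
      fun z a b => (hYn z b).1 (hXn z a).1

end Pool.Agent.P.MP_50fd71_pr.E8
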