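import Pool.Agent.P.MP_50fd71_pr.E8.Num

/-!
Rows of the certificate.
-/

namespace Pool.Agent.P.MP_50fd71_pr.E8.NumP

lemma ok570 : ok
    822891992808592991355470363327726585886442794924249389084376992191602035583026073449790816052148769618921404447416793488
    1380783161861634837709787525532107573425719814241108818772600241973204143330192736005255247812354549359642005323815621412
    802871995378238929293159446365089269820308881408 15 570 580 7623 = true := by
  decide +kernel

lemma ok580 : ok
    820367799379378026947204557685496892017775818437553862506987356745750973172485213133006084481209157560555571893460416912
    1347966179837229855714946433430508695636533419561512406611975235974803024895728393041847385805308574359111314921434682148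
    784317775373061450839401728762245833047333175296 15 580 590 9847 = true := by
  decide +kernel

lemma ok590 : ok
    817843605950163062538938752043265208856163202804289714400603525507685825444783194982678559152977404127038067928451135888
    1317673391242039847122207286033587807892971360139971698808429496687709841563511222263610928090059864233746550651966231332
    747641704890210826831963675336678992452288512 14 590 600 12349 = true := by
  decide +kernel

lemma ok600 : ok
    812795219091733133722409278833801632367950012731675088292877660743259639239053362139552095021591092178650652054900849040
    1289904796078415641267668774256134187845254563591907973864885628091578210053361556153337699619599317788122997030768120612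
    730916145991312859475811886632192721322803200 14 600 610 15330 = true := by
  decide +kernel

lemma ok610 : ok
    810271025662518169314141335118609188529741249737816387389819769647058377908994337041479480775879256681285225752469846416
    1262138663542529550637734826302520654268485870225511263271508314893501113865804407820688392740828665771939088222963667748
    715584383667323056066006080319746972787441664 14 610 620 18661 = true := by
  decide +kernel

lemma ok620 : ok
    807746832233303204905875529474340469391794148018283793595026560247941760324696102457872034995850253846570460354932259216
    1236894264213032507679303906523719237183617988972451913885780763182399635671100639395356332404017666414819004987971769124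
    700252621343333252656200274007301224252080128 14 620 630 22849 = true := by
  decide +kernel

lemma ok630 : ok
    802698447782131719173073097825693335970793611588005452811477291465201113164550059955697372104973696535016617194489788816
    1211652327513619826787684341584695088884208316583968250754508072598676675413301209821902448977882778069371626015582622500
    670186578978916883409979083618139538227200 13 630 640 27596 = true := by
  decide +kernel

lemma ok640 : ok
    800174251945660607421628233596744041100110542894666693760709372513718604199192655923906904134720290112416228539121415568
    1188932121615686293064420873211328580393203744701508304590518052786576784619876613043354065535612405973576942410540028708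
    656575284302079344871444099320868809768960 13 640 650 32853 = true := by
  decide +kernel

lemma ok650 : ok
    797650058516443349514746437883000747117602625174463474525923070635476577571616820105735877028925169783584700741704889744
    1166214378343142329738847686310790350053519360121094746415077376349579640681680909618228050960098498109486118527786849060
    642963989625241806332909115023598081310720 13 650 660 38503 = true := by
  decide +kernel

lemma ringB (h : SRow) : Ring 570 660 185611 :=
  ((((((((h _ _ _ _ _ _ _ ok570).add
    (h _ _ _ _ _ _ _ ok580)).add
    (h _ _ _ _ _ _ _ ok590)).add
    (h _ _ _ _ _ _ _ ok600)).add
    (h _ _ _ _ _ _ _ ok610)).add
    (h _ _ _ _ _ _ _ ok620)).add
    (h _ _ _ _ _ _ _ ok630)).add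
    (h _ _ _ _ _ _ _ ok640)).add
    (h _ _ _ _ _ _ _ ok650)

end Pool.Agent.P.MP_50fd71_pr.E8.NumP
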