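import Pool.Agent.P.MP_50fd71_pr.E8.Num

/-!
Rows of the certificate.
-/

namespace Pool.Agent.P.MP_50fd71_pr.E8.NumP

lemma ok660 : ok
    792601674065271861542199264056549403139159808177507702685506690516945125395964507294360396407989215301482089470561236367
    1143496635072949204734411202970659062449708369119300131212336859659637645027753554995434281063813476603899564108221813540
    630713824416088021648227629156054425698304 13 660 670 44669 = true := by
  decide +kernel

lemma ok670 : ok
    790077478231149292373528233055489588865266078320796018830070472105954922570304548233649684051302369780943692719474488719
    1123300622606581473747116280484163934914822468568103112214854806963133801386384862247395606565342404375624266525948285732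
    619824788674617990817399641718237842931712 13 670 680 51179 = true := by
  decide +kernel

lemma ok680 : ok
    785031556403016538710715484894176221898966520119728779909318632042655233564858489118355806173217556050608704696947717519
    1103107075170508624414924228965425375544076735913832890831615415445620273371774159331785904553877503623624628289571427108
    607574623465464206132718155850694187319296 13 680 690 58100 = true := by
  decide +kernel

lemma ok690 : ok
    782504900348414299647498911811938279761492939676188024771644832742820387412105845836063807915863415806551141837272659343
    1082913525329530463820942944247338168617103802303704655288287605628231639162765956475773339836427972009724418566505927460
    596685587723994175301890168412877604552704 13 690 700 65345 = true := by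
  decide +kernel

lemma ok700 : ok
    779980706919197041740617116098194985778985021955984805536860137802624116351053537336621723765608342162510956963109942671
    1062719977895808452812074849095592625484736965398812421276433150608153848992343116574344838911652207185526320707419280164
    587157681450207898324915679404788094631936 13 700 710 72404 = true := by
  decide +kernel

lemma ok710 : ok
    774934782688505225902358090543690059311483791956772616275917354366335928550485846812907612613319526723564823859556660623
    1045048158856309439390824158151628150226624705863390187981856123718973984387055037969879280787401667382570627946049737508
    576268645708737867494087691966971511865344 13 710 720 79949 = true := by
  decide +kernel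

lemma ok720 : ok
    772408126631554442016622942055758426019776741243984103408562960823851623438893349566347655298601065139041662745699562895
    1027378804851800097051863274467800253899802582828415576993818385688764059286470324789605370631872391595689867634467967780
    566740739434951590517113202958882001944576 13 720 730 87121 = true := by
  decide +kernel

lemma ok730 : ok
    769883933202339477608357136413526742860061263200784145532997190239129559666598279898155801117019756018918192615465039247
    1009709450844944507868487153818366759921383459975382312657901734089844655089966797479372972938451717384343675371212542756
    557212833161165313540138713950792492023808 13 730 740 93825 = true := by
  decide +kernel

lemma ok740 : ok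
    764838008971645368271484256774546126481747127943823601962408203473578988296851782256492410486262635639366775012980045199
    992040094435532150006097767096542147166062890340490882857804876581423859071528153313237921528410917887498473789109080868
    547684926887379036563164224942702982103040 13 740 750 100439 = true := by
  decide +kernel

lemma ringC (h : SRow) : Ring 660 750 653031 :=
  ((((((((h _ _ _ _ _ _ _ ok660).add
    (h _ _ _ _ _ _ _ ok670)).add
    (h _ _ _ _ _ _ _ ok680)).add
    (h _ _ _ _ _ _ _ ok690)).add
    (h _ _ _ _ _ _ _ ok700)).add
    (h _ _ _ _ _ _ _ ok710)).add
    (h _ _ _ _ _ _ _ ok720)).add
    (h _ _ _ _ _ _ _ ok730)).add
    (h _ _ _ _ _ _ _ ok740)

end Pool.Agent.P.MP_50fd71_pr.E8.NumP
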