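import Pool.Agent.P.MP_50fd71_pr.E8.Defs

/-!
Lower bounds for areas by annular sectors.
-/

open MeasureTheory Set Metric Bornology

noncomputable section

namespace Pool.Agent.P.MP_50fd71_pr.E8

namespace SectP

lemma norm_polar {s φ : ℝ} (hs : 0 ≤ s) : ‖(s : ℂ) * Complex.exp (φ * Complex.I)‖ = s := by
  rw [norm_mul, Complex.norm_exp_ofReal_mul_I, Complex.norm_real, Real.norm_eq_abs,
    abs_of_nonneg hs, mul_one]

lemma dist_polar (t φ ρ θ : ℝ) :
    ‖(t : ℂ) * Complex.exp (φ * Complex.I) - ρ * Complex.exp (θ * Complex.I)‖ ^ 2 =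
      t ^ 2 - 2 * t * ρ * Real.cos (φ - θ) + ρ ^ 2 := by
  rw [Complex.sq_norm, Complex.normSq_apply]
  simp only [Complex.sub_re, Complex.sub_im, Complex.re_ofReal_mul, Complex.im_ofReal_mul,
    Complex.exp_ofReal_mul_I_re, Complex.exp_ofReal_mul_I_im]
  rw [Real.cos_sub]
  have h1 := Real.sin_sq_add_cos_sq φ
  have h2 := Real.sin_sq_add_cos_sq θ
  linear_combination t ^ 2 * h1 + ρ ^ 2 * h2

/-- a point of a thin sector around the direction of `u` is close to `u` -/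
lemma mem_ball_polar {u : ℂ} {s b x y t φ : ℝ} (hu : u ≠ 0) (hs : 0 ≤ s) (hb : b ≤ Real.pi)
    (hx : 0 ≤ x) (h1 : ‖u‖ * x < t) (h2 : t < ‖u‖ * y)
    (hc : b = 0 ∨ (x ^ 2 + 1 ≤ s ^ 2 + 2 * x * Real.cos b ∧ y ^ 2 + 1 ≤ s ^ 2 + 2 * y * Real.cos b))
    (hφ : |φ - u.arg| < b) : (t : ℂ) * Complex.exp (φ * Complex.I) ∈ ball u (s * ‖u‖) := by
  have hρ : 0 < ‖u‖ := norm_pos_iff.2 hu
  have ha := abs_nonneg (φ - u.arg)
  rcases hc with hc | ⟨c1, c2⟩
  · linarith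
  have hcos : Real.cos b < Real.cos (φ - u.arg) := by
    rw [← Real.cos_abs (φ - u.arg)]
    exact Real.cos_lt_cos_of_nonneg_of_le_pi ha hb hφ
  obtain ⟨τ, rfl⟩ : ∃ τ, t = ‖u‖ * τ := ⟨t / ‖u‖, by field_simp⟩
  have x1 : x < τ := lt_of_mul_lt_mul_left h1 hρ.le
  have x2 : τ < y := lt_of_mul_lt_mul_left h2 hρ.le
  have hτ : 0 < τ := hx.trans_lt x1
  have cv : τ ^ 2 + 1 ≤ s ^ 2 + 2 * τ * Real.cos b := by
    have e1 := mul_le_mul_of_nonneg_left c1 (sub_pos.2 x2).le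
    have e2 := mul_le_mul_of_nonneg_left c2 (sub_pos.2 x1).le
    have e3 : 0 ≤ (τ - x) * (y - τ) * (y - x) :=
      mul_nonneg (mul_nonneg (sub_pos.2 x1).le (sub_pos.2 x2).le) (by linarith)
    have e4 : 0 < y - x := by linarith
    by_contra hn
    have e5 := mul_lt_mul_of_pos_left (not_le.1 hn) e4
    nlinarith
  have lt : τ ^ 2 - 2 * τ * Real.cos (φ - u.arg) + 1 < s ^ 2 := by
    have := mul_lt_mul_of_pos_left hcos hτ
    linarith
  have e := dist_polar (‖u‖ * τ) φ ‖u‖ u.arg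
  rw [Complex.norm_mul_exp_arg_mul_I] at e
  rw [mem_ball, dist_eq_norm]
  refine lt_of_pow_lt_pow_left₀ 2 (by positivity) ?_
  rw [e]
  have := mul_lt_mul_of_pos_left lt (pow_pos hρ 2)
  nlinarith

/-- the sum of the sectors of equal radial width -/
lemma area (h : SArea) {Y : Set ℂ} {N : ℕ} {ρ : ℝ} {a b : ℕ → ℝ} (hN : 0 < N) (hρ : 0 ≤ ρ)
    (hY : IsBounded Y) (h1 : ∀ i < N, a i < b i → -Real.pi ≤ a i ∧ b i ≤ Real.pi)
    (h2 : ∀ i < N, ∀ t φ : ℝ, ρ * ((i : ℝ) / N) < t → t < ρ * (((i : ℝ) + 1) / N) → a i < φ →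
      φ < b i → (t : ℂ) * Complex.exp (φ * Complex.I) ∈ Y) :
    ρ ^ 2 * ∑ i ∈ Finset.range N, (2 * (i : ℝ) + 1) / (2 * N ^ 2) * max 0 (b i - a i) ≤ ar Y := by
  have hN' : (0 : ℝ) < N := by exact_mod_cast hN
  have key := h.1 Y N (fun i : ℕ => ρ * ((i : ℝ) / N)) a b hY (by simp)
    (fun i j hij => by
      have : (i : ℝ) ≤ j := by exact_mod_cast hij
      exact mul_le_mul_of_nonneg_left (div_le_div_of_nonneg_right this hN'.le) hρ) h1
    (fun i hi t φ e1 e2 => h2 i hi t φ e1 (by simpa using e2))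
  refine le_trans (le_of_eq ?_) key
  rw [Finset.mul_sum]
  refine Finset.sum_congr rfl fun i _ => ?_
  rw [← mul_assoc]
  congr 1
  push_cast
  field_simp
  ring

lemma ang1 {δ γ β θ θ₁ θ₂ φ : ℝ} (hδ : 0 ≤ δ) (h0 : 0 ≤ θ) (h1 : θ₁ ≤ θ) (h2 : θ ≤ θ₂)
    (a : -(δ + max 0 (min γ (β - θ₂) - δ)) < φ)
    (b : φ < δ + if θ₂ < δ + β then max 0 (min γ (θ₁ + β) - δ) else 0) :
    |φ| < δ ∨ (|φ| < γ ∧ |φ - θ| < β) := by
  have m1 := min_le_left γ (β - θ₂)
  have m2 := min_le_right γ (β - θ₂)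
  have m3 := min_le_left γ (θ₁ + β)
  have m4 := min_le_right γ (θ₁ + β)
  by_cases c1 : δ ≤ φ
  · right
    split_ifs at b with c
    · rcases max_cases 0 (min γ (θ₁ + β) - δ) with ⟨e, _⟩ | ⟨e, _⟩ <;> rw [e] at b
      · linarith
      · constructor <;> rw [abs_lt] <;> constructor <;> linarith
    · linarith
  by_cases c2 : φ ≤ -δ
  · right
    rcases max_cases 0 (min γ (β - θ₂) - δ) with ⟨e, _⟩ | ⟨e, _⟩ <;> rw [e] at a
    · linarith
    · constructor <;> rw [abs_lt] <;> constructor <;> linarith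
  · left
    rw [abs_lt]
    constructor <;> linarith

lemma ang2 {γ β θ θ₁ θ₂ φ : ℝ} (h1 : θ₁ ≤ θ) (h2 : θ ≤ θ₂)
    (a : θ - min β (γ + θ₁) < φ) (b : φ < θ + min β (γ - θ₂)) : |φ| < γ ∧ |φ - θ| < β := by
  have m1 := min_le_left β (γ + θ₁)
  have m2 := min_le_right β (γ + θ₁)
  have m3 := min_le_left β (γ - θ₂)
  have m4 := min_le_right β (γ - θ₂)
  constructor <;> rw [abs_lt] <;> constructor <;> linarith

lemma up_le {δ γ x : ℝ} {c : Prop} [Decidable c] (hδ : δ ≤ Real.pi) (hγ : γ ≤ Real.pi) :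
    0 ≤ (if c then max 0 (min γ x - δ) else 0) ∧
      δ + (if c then max 0 (min γ x - δ) else 0) ≤ Real.pi := by
  have m := min_le_left γ x
  split_ifs
  · refine ⟨le_max_left _ _, ?_⟩
    rcases max_cases 0 (min γ x - δ) with ⟨e, _⟩ | ⟨e, _⟩ <;> rw [e] <;> linarith
  · exact ⟨le_rfl, by linarith⟩

lemma lo_le {δ γ x : ℝ} (hδ : δ ≤ Real.pi) (hγ : γ ≤ Real.pi) :
    0 ≤ max 0 (min γ x - δ) ∧ δ + max 0 (min γ x - δ) ≤ Real.pi := by
  simpa using up_le (c := True) (x := x) hδ hγ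

end SectP

open SectP

theorem ssect (h : SArea) : SSect := by
  intro K H N u s θ₁ θ₂ δ γ β hN hu hs h0 h1 h2 hr hK hβ
  have hN' : (0 : ℝ) < N := by exact_mod_cast hN
  have hρ : 0 < ‖u‖ := norm_pos_iff.2 hu
  have base : ∀ i < N, ∀ t φ : ℝ, ‖u‖ * ((i : ℝ) / N) < t → t < ‖u‖ * (((i : ℝ) + 1) / N) →
      (t : ℂ) * Complex.exp (φ * Complex.I) ∈ ball (0 : ℂ) ‖u‖ ∧
      (|φ| < δ i → (t : ℂ) * Complex.exp (φ * Complex.I) ∈ K) ∧
      (|φ| < γ i → (t : ℂ) * Complex.exp (φ * Complex.I) ∈ H) ∧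
      (|φ - u.arg| < β i → (t : ℂ) * Complex.exp (φ * Complex.I) ∈ ball u (s * ‖u‖)) := by
    intro i hi t φ e1 e2
    have ht : 0 < t := lt_of_le_of_lt (by positivity) e1
    have hin : ((i : ℝ) + 1) / N ≤ 1 := by
      rw [div_le_one hN']
      exact_mod_cast hi
    have e3 := hK i hi t φ ht (by rw [mul_div_assoc]; exact e2)
    refine ⟨?_, e3.1, e3.2, fun e => mem_ball_polar hu hs (hr i hi).2.2.2.2.2 (by positivity)
      e1 e2 (hβ i hi) e⟩
    rw [mem_ball_zero_iff, norm_polar ht.le]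
    have := mul_le_mul_of_nonneg_left hin hρ.le
    linarith
  have fin1 : ∀ i < N, ∀ t φ : ℝ, ‖u‖ * ((i : ℝ) / N) < t → t < ‖u‖ * (((i : ℝ) + 1) / N) →
      (|φ| < δ i ∨ (|φ| < γ i ∧ |φ - u.arg| < β i)) →
      (t : ℂ) * Complex.exp (φ * Complex.I) ∈ ball 0 ‖u‖ ∩ (K ∪ (H ∩ ball u (s * ‖u‖))) := by
    intro i hi t φ e1 e2 e3
    obtain ⟨b1, b2, b3, b4⟩ := base i hi t φ e1 e2
    exact ⟨b1, e3.imp b2 fun e => ⟨b3 e.1, b4 e.2⟩⟩
  have fin2 : ∀ i < N, ∀ t φ : ℝ, ‖u‖ * ((i : ℝ) / N) < t → t < ‖u‖ * (((i : ℝ) + 1) / N) →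
      (|φ| < γ i ∧ |φ - u.arg| < β i) →
      (t : ℂ) * Complex.exp (φ * Complex.I) ∈ ball u (s * ‖u‖) ∩ (H ∩ ball 0 ‖u‖) := by
    intro i hi t φ e1 e2 e3
    obtain ⟨b1, _, b3, b4⟩ := base i hi t φ e1 e2
    exact ⟨b4 e3.2, b3 e3.1, b1⟩
  have hb1 : IsBounded (ball (0 : ℂ) ‖u‖ ∩ (K ∪ (H ∩ ball u (s * ‖u‖)))) :=
    isBounded_ball.subset inter_subset_left
  have hb2 : IsBounded (ball u (s * ‖u‖) ∩ (H ∩ ball (0 : ℂ) ‖u‖)) :=
    isBounded_ball.subset inter_subset_left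
  have hup := fun i (hi : i < N) =>
    up_le (c := θ₂ < δ i + β i) (x := θ₁ + β i) (hr i hi).2.1 (hr i hi).2.2.2.1
  have hlo := fun i (hi : i < N) => lo_le (x := β i - θ₂) (hr i hi).2.1 (hr i hi).2.2.2.1
  rcases le_total 0 u.arg with hθ | hθ
  · rw [abs_of_nonneg hθ] at h1 h2
    constructor
    · refine le_trans ?_ (area h (a := fun i => -(δ i + max 0 (min (γ i) (β i - θ₂) - δ i)))
        (b := fun i => δ i + if θ₂ < δ i + β i then max 0 (min (γ i) (θ₁ + β i) - δ i) else 0)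
        hN hρ.le hb1 (fun i hi _ => ⟨neg_le_neg (hlo i hi).2, (hup i hi).2⟩)
        fun i hi t φ e1 e2 a b => fin1 i hi t φ e1 e2 (ang1 (hr i hi).1 hθ h1 h2 a b))
      refine mul_le_mul_of_nonneg_left (Finset.sum_le_sum fun i _ =>
        mul_le_mul_of_nonneg_left (le_trans (le_of_eq ?_) (le_max_right _ _)) (by positivity))
        (by positivity)
      ring
    · refine le_trans (le_of_eq ?_) (area h (a := fun i => u.arg - min (β i) (γ i + θ₁))
        (b := fun i => u.arg + min (β i) (γ i - θ₂)) hN hρ.le hb2 (fun i hi _ => ?_)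
        fun i hi t φ e1 e2 a b => fin2 i hi t φ e1 e2 (ang2 h1 h2 a b))
      · congr 1
        refine Finset.sum_congr rfl fun i _ => ?_
        congr 2
        ring
      · have m2 := min_le_right (β i) (γ i + θ₁)
        have m4 := min_le_right (β i) (γ i - θ₂)
        have := (hr i hi).2.2.2.1
        constructor <;> linarith
  · rw [abs_of_nonpos hθ] at h1 h2
    have fl : ∀ φ : ℝ, |-φ - -u.arg| = |φ - u.arg| := fun φ => by
      rw [← abs_neg]
      congr 1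
      ring
    constructor
    · refine le_trans ?_ (area h
        (a := fun i => -(δ i + if θ₂ < δ i + β i then max 0 (min (γ i) (θ₁ + β i) - δ i) else 0))
        (b := fun i => δ i + max 0 (min (γ i) (β i - θ₂) - δ i))
        hN hρ.le hb1 (fun i hi _ => ⟨neg_le_neg (hup i hi).2, (hlo i hi).2⟩)
        fun i hi t φ e1 e2 a b => fin1 i hi t φ e1 e2 ?_)
      · refine mul_le_mul_of_nonneg_left (Finset.sum_le_sum fun i _ =>
          mul_le_mul_of_nonneg_left (le_trans (le_of_eq ?_) (le_max_right _ _)) (by positivity))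
          (by positivity)
        ring
      · have := ang1 (φ := -φ) (hr i hi).1 (neg_nonneg.2 hθ) h1 h2 (neg_lt_neg b)
          (neg_lt.1 a)
        rwa [abs_neg, fl] at this
    · refine le_trans (le_of_eq ?_) (area h (a := fun i => u.arg - min (β i) (γ i - θ₂))
        (b := fun i => u.arg + min (β i) (γ i + θ₁)) hN hρ.le hb2 (fun i hi _ => ?_)
        fun i hi t φ e1 e2 a b => fin2 i hi t φ e1 e2 ?_)
      · congr 1
        refine Finset.sum_congr rfl fun i _ => ?_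
        congr 2
        ring
      · have m2 := min_le_right (β i) (γ i + θ₁)
        have m4 := min_le_right (β i) (γ i - θ₂)
        have := (hr i hi).2.2.2.1
        constructor <;> linarith
      · have := ang2 (φ := -φ) (γ := γ i) (β := β i) h1 h2 (by linarith) (by linarith)
        rwa [abs_neg, fl] at this

end Pool.Agent.P.MP_50fd71_pr.E8
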