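import Pool.Agent.P.MP_50fd71_pr.E8.Defs

/-!
Summation over the shells.
-/

open MeasureTheory Set Metric Bornology

noncomputable section

namespace Pool.Agent.P.MP_50fd71_pr.E8

namespace ShellP

lemma ub_cnt {P : Set ℂ} (hP : Ok P) (i : ℕ) :
    UB P (fun S => cnt S P = i) (Real.exp (-ar P) * ar P ^ i / i.factorial) :=
  fun _ _ _ X hX => ⟨{ω | cnt (X ω) P = i},
    meas_cnt X hP subset_rfl (MeasurableSet.of_discrete (s := {i})), (hX.law P hP i).le,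
    fun _ h => h⟩

lemma one (h1 : SAnd) (h2 : SSmall) (h4 : STwo) (h5 : SConv) (k : ℕ) {W E A P Q : Set ℂ}
    (oE : Ok E) (oA : Ok A) (oP : Ok P) (oQ : Ok Q) (sE : E ⊆ W) (sA : A ⊆ W) (sQ : Q ⊆ W)
    (sP : P ⊆ Q) (dA : Disjoint E A) (dQ : Disjoint E Q) (dP : Disjoint A P) :
    UB W (fun S => cnt S P < k ∧ S ∩ E = ∅ ∧ Two S A k (Q \ P) (k - cnt S P))
      (Real.exp (-ar E) * T k (ar A) * (T k (ar Q) - T k (ar P))) := by
  have e : ar P + ar (Q \ P) = ar Q := by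
    rw [ar_diff oQ.2 oP.1, inter_eq_right.2 sP]
    ring
  refine (ub_exists (Finset.range k) (W := W)
    (E := fun i S => (cnt S P = i ∧ Two S A k (Q \ P) (k - i)) ∧ S ∩ E = ∅)
    (p := fun i => Real.exp (-ar P) * ar P ^ i / i.factorial *
      (T k (ar A) * T (k - i) (ar (Q \ P))) * Real.exp (-ar E)) fun i _ => ?_).mono le_rfl
    (fun S _ h => ⟨cnt S P, Finset.mem_range.2 h.1, ⟨rfl, h.2.2⟩, h.2.1⟩) (le_of_eq ?_)
  · refine (h1 _ _ _ _ _ _ ?_ (h1 _ _ _ _ _ _ ?_ (ub_cnt oP i)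
      (h4 A (Q \ P) k (k - i) oA (oQ.diff oP.1))) (h2 E oE).1).mono ?_ (fun _ _ h => h) le_rfl
    · exact disjoint_union_left.2 ⟨(dQ.mono_right sP).symm,
        disjoint_union_left.2 ⟨dA.symm, (dQ.mono_right sdiff_subset).symm⟩⟩
    · exact disjoint_union_right.2 ⟨dP.symm, disjoint_sdiff_right⟩
    · exact union_subset (union_subset (sP.trans sQ) (union_subset sA (sdiff_subset.trans sQ))) sE
  · rw [← e, ← h5.1, Finset.mul_sum]
    exact Finset.sum_congr rfl fun i _ => by ring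

end ShellP

theorem sshell (h1 : SAnd) (h2 : SSmall) (h3 : STail) (h4 : STwo) (h5 : SConv) : SShell := by
  intro k n W E A P Q δ t M hδ hM ho hs hd hb
  have F0 : ∀ j, 0 ≤ Real.exp (-ar (E j)) * T k (ar (A j)) := fun j =>
    mul_nonneg (Real.exp_pos _).le (h3.1 k _ (ar_nonneg _))
  have F1 : ∀ j, Real.exp (-ar (E j)) * T k (ar (A j)) ≤ 1 := fun j =>
    mul_le_one₀ (Real.exp_le_one_iff.2 (neg_nonpos.2 (ar_nonneg _))) (h3.1 k _ (ar_nonneg _))
      (h5.2.2.1 k _ (ar_nonneg _))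
  have M0 : 0 ≤ M 0 := by
    rcases Nat.eq_zero_or_pos n with h | h
    · rw [← h, hM]
    · exact (F0 0).trans (hb 0 h).2.1
  refine (ub_exists (Finset.range n) (W := W)
    (E := fun j S => cnt S (P j) < k ∧ S ∩ E j = ∅ ∧ Two S (A j) k (Q j \ P j) (k - cnt S (P j)))
    (p := fun j => M j * (T k (ar (P (j + 1))) - T k (ar (P j))) + δ) fun j hj => ?_).mono le_rfl
    (fun S _ ⟨j, hj, h⟩ => ⟨j, Finset.mem_range.2 hj, h⟩) ?_
  · have hj' := Finset.mem_range.1 hj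
    obtain ⟨oE, oA, oP, oQ⟩ := ho j
    obtain ⟨sE, sA, sQ, sP, sP'⟩ := hs j hj'
    obtain ⟨dA, dQ, dP⟩ := hd j hj'
    obtain ⟨b1, b2, -⟩ := hb j hj'
    refine (ShellP.one h1 h2 h4 h5 k oE oA oP oQ sE sA sQ sP dA dQ dP).mono le_rfl
      (fun _ _ h => h) ?_
    have a1 : T k (ar (Q j)) ≤ T k (ar (P (j + 1))) + δ :=
      (h3.2.1 k _ _ (ar_nonneg _) b1).trans (h5.2.1 k _ _ (ar_nonneg _) hδ)
    have a2 : 0 ≤ T k (ar (P (j + 1))) - T k (ar (P j)) :=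
      sub_nonneg.2 (h3.2.1 k _ _ (ar_nonneg _) (ar_mono sP' (ho (j + 1)).2.2.1.2))
    have a3 := mul_le_mul_of_nonneg_left a1 (F0 j)
    have a4 := mul_le_mul_of_nonneg_right b2 a2
    have a5 := mul_le_mul_of_nonneg_right (F1 j) hδ
    linarith
  · rw [Finset.sum_add_distrib, Finset.sum_const, Finset.card_range, nsmul_eq_mul]
    exact add_le_add_left (h5.2.2.2 n (fun j => T k (ar (P j))) t M
      (fun j => h3.1 k _ (ar_nonneg _)) (fun j hj => (hb j hj).2.2) M0 hM) _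

end Pool.Agent.P.MP_50fd71_pr.E8
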