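import Pool.Agent.P.MP_50fd71_pr.E8.Defs

/-!
From the boxes to the local estimate.
-/

open MeasureTheory Set Metric Bornology

noncomputable section

namespace Pool.Agent.P.MP_50fd71_pr.E8

theorem ssum (h1 : SSmall) (h2 : STail) (h3 : STwo) (h4 : SCore) : SSum := by
  intro k r c w η ρ₁ ρ₂ l a p hη hr hρ₁ hρ hc hw hl ha hC O hO hOη
  have hL : Ok (DD r ∩ ball 0 ρ₂) := (ok_closedBall _ _).inter measurableSet_ball
  have hA : UB (ball (r : ℂ) w \ O) (fun S => S ∩ ((DD r ∩ ball 0 ρ₂) \ O) = ∅)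
      (Real.exp (-l)) := by
    refine (h1 _ (hL.diff hO)).1.mono ?_ (fun _ _ h => h) ?_
    · refine sdiff_subset_sdiff_left fun x hx => ?_
      have e1 : dist x r ≤ r := hx.1
      rw [mem_ball]
      linarith
    · refine Real.exp_le_exp.2 (neg_le_neg (hl.trans (max_le (ar_nonneg _) ?_)))
      rw [ar_diff hL.2 hO]
      have e1 : ar (DD r ∩ ball 0 ρ₂ ∩ O) ≤ ar (closedBall 0 η) :=
        ar_mono (inter_subset_right.trans hOη) isBounded_closedBall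
      rw [ar_closedBall _ hη.le] at e1
      have e2 := mul_le_mul_of_nonneg_right Real.pi_le_four (sq_nonneg η)
      nlinarith [sq_nonneg η]
  have hsub : ball (0 : ℂ) (ρ₁ + 2 * η) ⊆ ball (r : ℂ) w := fun y hy => by
    have e1 : ‖y‖ < ρ₁ + 2 * η := mem_ball_zero_iff.1 hy
    have e2 : ‖y - r‖ ≤ ‖y‖ + ‖(r : ℂ)‖ := norm_sub_le _ _
    rw [Complex.norm_real, Real.norm_eq_abs, abs_of_pos hr] at e2
    rw [mem_ball, dist_eq_norm]
    linarith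
  have hB : UB (ball (r : ℂ) w \ O) (fun S => Two S (ball 0 (ρ₁ + 2 * η) \ O) k ∅ 0) (T k a) := by
    refine (h3 _ ∅ k 0 ((ok_ball _ _).diff hO) ⟨MeasurableSet.empty, isBounded_empty⟩).mono ?_
      (fun _ _ h => h) ?_
    · rw [union_empty]
      exact sdiff_subset_sdiff_left hsub
    · have e1 : ∀ x, T 0 x = 1 := fun x => by simp [T]
      rw [e1, mul_one]
      refine h2.2.1 k _ _ (ar_nonneg _) ((ar_mono sdiff_subset isBounded_ball).trans ?_)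
      rwa [ar_ball _ (by linarith)]
  refine ((hA.or hB).or (hC O hO hOη)).mono le_rfl ?_ le_rfl
  rintro S hS ⟨v, hv, C, hCl, hvC, hD⟩
  rcases ((S \ C) ∩ (GG r c ∩ ball 0 ρ₂)).eq_empty_or_nonempty with he | hne
  · refine Or.inl (Or.inl (eq_empty_of_forall_notMem fun y hy => ?_))
    have e1 : dist y r ≤ r := hy.2.1.1
    have e2 : ‖y‖ < ρ₂ := mem_ball_zero_iff.1 hy.2.1.2
    have e3 : y ∈ (S \ C) ∩ (GG r c ∩ ball 0 ρ₂) :=
      ⟨⟨hy.1, fun h => disjoint_left.1 hD h hy.2.1.1⟩, show dist y r + ‖y‖ ≤ c by linarith,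
        hy.2.1.2⟩
    rw [he] at e3
    exact e3
  obtain ⟨x, hx, hmin⟩ := Set.exists_min_image _ (fun x : ℂ => ‖x‖)
    ((hS _ (isBounded_ball (x := (0 : ℂ)) (r := ρ₂))).subset
      fun y hy => ⟨hy.1.1, hy.2.2⟩) hne
  have hx2 : ‖x‖ < ρ₂ := mem_ball_zero_iff.1 hx.2.2
  rcases lt_or_ge ‖x‖ ρ₁ with hlt | hge
  · obtain ⟨X, Y, hX, -, hX', -⟩ := h4 k S C v x hS hCl hvC hx.1.1 hx.1.2
    have hvO : v ∈ S ∩ ball (r : ℂ) w ∩ O := hv ▸ mem_singleton v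
    have hvn : ‖v‖ ≤ η := mem_closedBall_zero_iff.1 (hOη hvO.2)
    refine Or.inl (Or.inr ⟨X, ∅, Finset.disjoint_empty_right X, hX, rfl, fun y hy => ?_, by simp⟩)
    obtain ⟨⟨hyC, hyb⟩, hyv⟩ := hX' hy
    have e1 : ‖y - v‖ < ‖v - x‖ := by rwa [mem_ball, dist_eq_norm, dist_eq_norm] at hyb
    have e2 : ‖v - x‖ ≤ ‖v‖ + ‖x‖ := norm_sub_le _ _
    have e3 : ‖y‖ ≤ ‖y - v‖ + ‖v‖ := by simpa using norm_add_le (y - v) v
    have e4 : y ∈ ball (0 : ℂ) (ρ₁ + 2 * η) := mem_ball_zero_iff.2 (by linarith)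
    exact ⟨hCl.1 hyC, e4, fun h => hyv (hv ▸ ⟨⟨hCl.1 hyC, hsub e4⟩, h⟩)⟩
  · refine Or.inr ⟨x, ⟨hx.1.1, hx.2.1, hge, hx2.le, abs_nonneg _,
      (Complex.abs_arg_le_pi x).trans Real.pi_le_four⟩, v, C, hv, hCl, hvC, hD, hx.1.1, hx.1.2,
      fun y hy hyx => ?_⟩
    by_contra h
    exact absurd (hmin y ⟨⟨hy.1, h⟩, hy.2, mem_ball_zero_iff.2 (hyx.trans hx2)⟩) (not_le.2 hyx)

end Pool.Agent.P.MP_50fd71_pr.E8
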