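import Pool.Agent.P.MP_50fd71_pr.And
import Pool.Agent.P.MP_50fd71_pr.Small
import Pool.Agent.P.MP_50fd71_pr.Two
import Pool.Agent.P.MP_50fd71_pr.Piece
import Pool.Agent.P.MP_50fd71_pr.Move
import Pool.Agent.P.MP_50fd71_pr.Area
import Pool.Agent.P.MP_50fd71_pr.Core
import Pool.Agent.P.MP_50fd71_pr.Pei
import Pool.Agent.P.MP_50fd71_pr.LatB
import Pool.Agent.P.MP_50fd71_pr.E8.Conv
import Pool.Agent.P.MP_50fd71_pr.E8.Shell
import Pool.Agent.P.MP_50fd71_pr.E8.Geo
import Pool.Agent.P.MP_50fd71_pr.E8.Cell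
import Pool.Agent.P.MP_50fd71_pr.E8.Sum
import Pool.Agent.P.MP_50fd71_pr.E8.Sect
import Pool.Agent.P.MP_50fd71_pr.E8.Cos
import Pool.Agent.P.MP_50fd71_pr.E8.Exp
import Pool.Agent.P.MP_50fd71_pr.E8.RowA
import Pool.Agent.P.MP_50fd71_pr.E8.RowB
import Pool.Agent.P.MP_50fd71_pr.E8.RowC
import Pool.Agent.P.MP_50fd71_pr.E8.RowD
import Pool.Agent.P.MP_50fd71_pr.E8.RowE

/-!
Percolation with eight neighbours.
-/

open MeasureTheory Set

namespace Pool.Agent.P.MP_50fd71_pr.E8

open NumP

/-- angles of the lens -/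
def DL : ℕ := 684063824051287984857728606557747459289509513221447305082859851754515657729304715844438810313018220373379950380539325838

theorem loc8 : Loc 8 (5 / 2) (9901 / 2000) (1 / 10000) (4 / 1000) := by
  have h := srow stail scos (ssect sarea) sexp (scell stail (spiece sand ssmall) sarea
    (sshell sand ssmall stail (stwo stail) (sconv stail)) (sgeo score))
  have hR := ((((ringA h).add (ringB h)).add (ringC h)).add (ringD h)).add (ringE h)
  have hL := lens scos (ssect sarea) (D := DL) (by decide +kernel)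
  rw [show 980 * 980 * se DL (fun _ => 0) (bt 0) 0 0 / 1024000000 - 1 = 942 by
    decide +kernel] at hL
  have H := ssum ssmall stail (stwo stail) score 8 _ _ _ _ _ _ _ ((102 : ℕ) / 128) _
    (by norm_num) (by norm_num) (by norm_num) (by norm_num) (by norm_num) (by norm_num) hL
    (by push_cast; linarith [Real.pi_lt_d4]) hR
  have e1 := (sexp 942).1
  have e2 := (sexp 102).2
  have f1 : (exU 942 : ℝ) ≤ (2740000 : ℕ) := Nat.cast_le.2 (by decide +kernel)
  have f2 : (tU 102 : ℝ) ≤ (10000 : ℕ) := Nat.cast_le.2 (by decide +kernel)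
  refine fun O a b => (H O a b).mono le_rfl (fun _ _ h => h) ?_
  push_cast at *
  linarith

theorem perc8 {Ω : Type} [MeasurableSpace Ω] {μ : Measure Ω} {P : Ω → Set ℂ} (h : Poi μ P) :
    ∀ᵐ ω ∂μ, ∃ x, {y | Relation.ReflTransGen (Adj 8 (P ω)) x y}.Infinite := by
  have h2 := sedge ssmall (spiece sand ssmall) smove sarea 8 (5 / 2) (9901 / 2000) (1 / 20000)
    (4 / 1000) (by norm_num) (by norm_num) (by norm_num) (by norm_num)
    (by convert loc8 using 1; norm_num)
  refine spei sand slat 8 228655 (5 / 2) (9901 / 2000) (1 / 20000) _ (by norm_num) (by norm_num) ?_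
    (by positivity) ?_ h2 Ω μ P h
  · have : (173205 / 100000 : ℝ) ≤ √3 := Real.le_sqrt_of_sq_le (by norm_num)
    push_cast
    linarith
  · have e1 := (sexp 2508).1
    have e2 : (exU 2508 : ℝ) ≤ (20 : ℕ) := Nat.cast_le.2 (by decide +kernel)
    have e4 : Real.exp (-(Real.pi * (5 / 2) ^ 2)) ≤ Real.exp (-(((2508 : ℕ) : ℝ) / 128)) :=
      Real.exp_le_exp.2 (by push_cast; linarith [Real.pi_gt_d4])
    push_cast at *
    linarith

end Pool.Agent.P.MP_50fd71_pr.E8
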