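import Pool.Agent.P.MP_50fd71_pr.E8.Defs

/-!
The integer certificate for the local estimate and its soundness.
-/

open MeasureTheory Set Metric Finset

namespace Pool.Agent.P.MP_50fd71_pr.E8.NumP

/-- finite sum -/
def sm (n : ℕ) (f : ℕ → ℕ) : ℕ := Nat.rec 0 (fun i s => Nat.add s (f i)) n
/-- finite conjunction -/
def al (n : ℕ) (f : ℕ → Bool) : Bool := Nat.rec true (fun i s => s && f i) n
/-- digit in base 1024 -/
def dg (T i : ℕ) : ℕ := Nat.land (Nat.shiftRight T (Nat.mul 10 i)) 1023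
/-- minimum -/
def mn (a b : ℕ) : ℕ := Nat.sub a (Nat.sub a b)
/-- length of a union of arcs -/
def ex (d g b c₁ c₂ : ℕ) : ℕ :=
  Nat.add (Nat.add (Nat.add d d)
    (bif Nat.blt c₂ (Nat.add d b) then Nat.sub (mn g (Nat.add c₁ b)) d else 0))
    (Nat.sub (mn g (Nat.sub b c₂)) d)
/-- length of an intersection of arcs -/
def bx (g b c₁ c₂ : ℕ) : ℕ := Nat.sub (Nat.add (mn b (Nat.add g c₁)) (mn (Nat.add b c₂) g)) c₂
/-- test for `a ≤ a' + b * cos (g / 256)` -/
def ck (a a' b g : ℕ) : Bool :=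
  Nat.ble g 804 && Nat.ble
    (a * (3628800 * 256 ^ 10) + b * (1814400 * 256 ^ 8 * g ^ 2 + 5040 * 256 ^ 4 * g ^ 6 + g ^ 10))
    (a' * (3628800 * 256 ^ 10) +
      b * (3628800 * 256 ^ 10 + 151200 * 256 ^ 6 * g ^ 4 + 90 * 256 ^ 2 * g ^ 8))
/-- angles of the shells -/
def BT : ℕ := 3453397497546545154905772723828523593273331039824092926305792890668924327605342749891466089226912672544283561568587317597062645495578192255522854890182538696823803992989311013147196670166292712682062916114428514475106588093609033679252680338003396514107399194564687550434347375064345271743579010402450573288842371863429219098981390084740446075229383896090373521703512416864939887589898003025041600451084851582771776625909025452618076104863265904355582257185568389614486808210657191821000558392038381671461338934655158147981662418921265288885404746285947240357382930688742208230157873398475352854108283712571092813102002632974357308389767095451591970832156265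775055114617677305794882438988081213811393692880023939061470354646800792470223201256581903593917464186675067251706312899259634663728329249036298053469962751195387119477033799038908556492223520219339510675695665518428900844940339440591299989627008224244845481853601457527497652525338490437844260835610011330498709986597107709618095230864381500240872361790344796608948511552594182117213624415563796208093973273911673325739686284889761013065583339860078076366737098951858111254835401585911692013488590000638110644372132568689792498962197028899127296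
/-- angles of one shell -/
def bt (j : ℕ) : ℕ := Nat.shiftRight BT (Nat.mul 400 j)
/-- radii of the shells -/
def ss (j : ℕ) : ℕ := bif Nat.beq j 0 then 0 else 11 + j
/-- area of a union -/
def se (D : ℕ) (G : ℕ → ℕ) (b c₁ c₂ : ℕ) : ℕ :=
  sm 40 fun i => Nat.mul (Nat.succ (Nat.add i i)) (ex (dg D i) (G i) (dg b i) c₁ c₂)
/-- area of an intersection -/
def sb (G b c₁ c₂ : ℕ) : ℕ :=
  sm 40 fun i => Nat.mul (Nat.succ (Nat.add i i)) (bx (dg G i) (dg b i) c₁ c₂)
/-- empty area -/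
def ge (D G p c₁ c₂ j : ℕ) : ℕ := p * p * se D (dg G) (bt j) c₁ c₂ / 1024000000 - 1
/-- first area -/
def ga (D p c₁ c₂ j : ℕ) : ℕ :=
  p * p * (2573593 - se D (fun _ => 804) (bt j) c₁ c₂) / 1024000000 + 2
/-- second area -/
def gb (G p c₁ c₂ j : ℕ) : ℕ :=
  p * p * (2573593 * ss j ^ 2 / 400 + 1 - sb G (bt j) c₁ c₂) / 1024000000 + 2
/-- weight of a shell -/
def FF (D G p₁ p₂ c₁ c₂ j : ℕ) : ℕ :=
  bif Nat.ble 9 j then 0 else exU (ge D G p₁ c₁ c₂ j) * tU (ga D p₂ c₁ c₂ j)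
/-- value of a cell -/
def cell (D G p₁ p₂ c₁ c₂ : ℕ) : ℕ :=
  (sm 9 fun j => tU (gb G p₂ c₁ c₂ (j + 1)) *
    (FF D G p₁ p₂ c₁ c₂ j - FF D G p₁ p₂ c₁ c₂ (j + 1))) + 10 ^ 22
/-- the angles of the shells are valid -/
def bok : Bool := al 10 fun j => al 40 fun i => Nat.beq (dg (bt j) i) 0 ||
  (ck (400 * i ^ 2 + 640000) (1600 * ss j ^ 2) (32000 * i) (dg (bt j) i) &&
    ck (400 * (i + 1) ^ 2 + 640000) (1600 * ss j ^ 2) (32000 * (i + 1)) (dg (bt j) i))
/-- the angles of the disc and of the ellipse are valid -/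
def rok (D G p : ℕ) : Bool := al 40 fun i => ck (p * (i + 1)) 0 80000 (dg D i) &&
  ck (99 * (p * (i + 1))) 2920400 (50 * (p * (i + 1))) (dg G i)
/-- value of a row -/
def row (D G H m p₁ p₂ : ℕ) : ℕ :=
  sm m fun c => (dg H (c + 1) - dg H c) * cell D G p₁ p₂ (dg H c) (dg H (c + 1))
/-- test for a row -/
def ok (D G H m p₁ p₂ V : ℕ) : Bool :=
  rok D G p₂ && Nat.ble 200 p₁ && Nat.ble p₁ p₂ && Nat.ble p₂ 980 && Nat.beq (dg H 0) 0 &&
    (al m fun c => Nat.ble (dg H c) (dg H (c + 1))) &&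
    (Nat.ble 805 (dg H m) || ck 73011 (99 * p₁) (50 * p₁) (805 - dg H m)) &&
    Nat.ble ((p₂ * p₂ - p₁ * p₁) * row D G H m p₁ p₂ * 10 ^ 9) (V * (40960000 * 2 ^ 96))

lemma sm_eq (n : ℕ) (f : ℕ → ℕ) : sm n f = ∑ i ∈ range n, f i := by
  induction n with
  | zero => rfl
  | succ n ih => rw [sum_range_succ, ← ih]; rfl

lemma al_true {n : ℕ} {f : ℕ → Bool} (h : al n f = true) : ∀ i < n, f i = true := by
  induction n with
  | zero => exact fun i hi => absurd hi i.not_lt_zero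
  | succ n ih =>
    have h' : (al n f && f n) = true := h
    rw [Bool.and_eq_true] at h'
    intro i hi
    rcases Nat.lt_succ_iff_lt_or_eq.1 hi with h1 | rfl
    exacts [ih h'.1 i h1, h'.2]

lemma bok_true : bok = true := by decide +kernel

lemma ex_int (d g b c₁ c₂ : ℕ) : (ex d g b c₁ c₂ : ℤ) = 2 * d +
    (if (c₂ : ℤ) < d + b then max 0 (min (g : ℤ) (c₁ + b) - d) else 0) +
    max 0 (min (g : ℤ) (b - c₂) - d) := by
  simp only [ex, mn, Nat.add_eq, Nat.sub_eq, Bool.cond_eq_ite, Nat.blt_eq]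
  split_ifs <;> omega

lemma bx_int (g b c₁ c₂ : ℕ) :
    (bx g b c₁ c₂ : ℤ) = max 0 (min (b : ℤ) (g + c₁) + min (b : ℤ) (g - c₂)) := by
  simp only [bx, mn, Nat.add_eq, Nat.sub_eq]
  omega

lemma max0 (x : ℝ) : max 0 (x / 256) = max 0 x / 256 := by
  rw [← max_div_div_right (by norm_num), zero_div]

lemma ex_cast (d g b c₁ c₂ : ℕ) : (ex d g b c₁ c₂ : ℝ) / 256 = 2 * (d / 256 : ℝ) +
    (if (c₂ / 256 : ℝ) < d / 256 + b / 256 then
      max 0 (min (g / 256 : ℝ) (c₁ / 256 + b / 256) - d / 256) else 0) +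
    max 0 (min (g / 256 : ℝ) (b / 256 - c₂ / 256) - d / 256) := by
  have h := congrArg (fun z : ℤ => (z : ℝ)) (ex_int d g b c₁ c₂)
  have e : ((c₂ : ℤ) < d + b) ↔ (c₂ / 256 : ℝ) < d / 256 + b / 256 := by
    rw [← add_div, div_lt_div_iff_of_pos_right (by norm_num)]
    exact_mod_cast Iff.rfl
  simp only [← add_div, ← sub_div, min_div_div_right (show (0 : ℝ) ≤ 256 by norm_num), max0] at e ⊢
  simp only [e] at h
  split_ifs at h ⊢ <;> push_cast at h <;> rw [h] <;> ring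

lemma bx_cast (g b c₁ c₂ : ℕ) : (bx g b c₁ c₂ : ℝ) / 256 =
    max 0 (min (b / 256 : ℝ) (g / 256 + c₁ / 256) + min (b / 256 : ℝ) (g / 256 - c₂ / 256)) := by
  have h := congrArg (fun z : ℤ => (z : ℝ)) (bx_int g b c₁ c₂)
  simp only [← add_div, ← sub_div, min_div_div_right (show (0 : ℝ) ≤ 256 by norm_num), max0]
  push_cast at h
  rw [h]

lemma ck_sound (h : SCos) {a a' b g : ℕ} (H : ck a a' b g = true) :
    (g / 256 : ℝ) ≤ Real.pi ∧ (a : ℝ) ≤ a' + b * Real.cos (g / 256) := by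
  simp only [ck, Bool.and_eq_true, Nat.ble_eq] at H
  have h1 : (g : ℝ) ≤ 804 := by exact_mod_cast H.1
  have h2 := (Nat.cast_le (α := ℝ)).2 H.2
  have h3 := mul_le_mul_of_nonneg_left (h.1 (g / 256) (by positivity)) (b.cast_nonneg (α := ℝ))
  push_cast at h2
  exact ⟨by linarith [Real.pi_gt_d4], by linarith⟩

lemma sect (h1 : SCos) (h2 : SSect) {D p c₁ c₂ j : ℕ} {G : ℕ → ℕ} {H : Set ℂ} {u : ℂ}
    (hj : j < 10) (hu : u ≠ 0) (hp : ‖u‖ ≤ p / 400) (h3 : (c₁ / 256 : ℝ) ≤ |u.arg|)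
    (h4 : |u.arg| ≤ c₂ / 256) (hD : ∀ i < 40, ck (p * (i + 1)) 0 80000 (dg D i) = true)
    (hG : ∀ i < 40, (G i / 256 : ℝ) ≤ Real.pi ∧ ∀ t φ : ℝ, 0 < t → t < p * (i + 1) / 16000 →
      |φ| < G i / 256 → (t : ℂ) * Complex.exp (φ * Complex.I) ∈ H) :
    ‖u‖ ^ 2 * (se D G (bt j) c₁ c₂ / 819200) ≤
        ar (ball 0 ‖u‖ ∩ (DD (5 / 2) ∪ (H ∩ ball u (ss j / 20 * ‖u‖)))) ∧
      ‖u‖ ^ 2 * ((sm 40 fun i => Nat.mul (Nat.succ (Nat.add i i))
        (bx (G i) (dg (bt j) i) c₁ c₂) : ℕ) / 819200) ≤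
        ar (ball u (ss j / 20 * ‖u‖) ∩ (H ∩ ball 0 ‖u‖)) := by
  have hB := fun i hi => al_true (al_true bok_true j hj) i hi
  simp only [Bool.or_eq_true, Bool.and_eq_true, Nat.beq_eq] at hB
  have ht : ∀ (i : ℕ) (t : ℝ), t < ‖u‖ * (i + 1) / (40 : ℕ) → t < p * (i + 1) / 16000 := by
    intro i t ht
    have := mul_le_mul_of_nonneg_right hp (show (0 : ℝ) ≤ i + 1 by positivity)
    push_cast at ht
    linarith
  have H := h2 (DD (5 / 2)) H 40 u (ss j / 20) (c₁ / 256) (c₂ / 256) (fun i => dg D i / 256)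
    (fun i => G i / 256) (fun i => dg (bt j) i / 256) (by norm_num) hu (by positivity)
    (by positivity) h3 h4
    (fun i hi => ⟨by positivity, (ck_sound h1 (hD i hi)).1, by positivity, (hG i hi).1,
      by positivity, (hB i hi).elim (fun e => by simp [e, Real.pi_pos.le])
        fun e => (ck_sound h1 e.1).1⟩)
    (fun i hi t φ h0 h5 => ⟨fun h6 => h1.2.1 _ t (p * (i + 1) / 16000) φ _ (by norm_num) h0.le
      (ht i t h5).le h6.le (ck_sound h1 (hD i hi)).1 (by
        have := (ck_sound h1 (hD i hi)).2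
        push_cast at this
        linarith), (hG i hi).2 t φ h0 (ht i t h5)⟩)
    (fun i hi => (hB i hi).imp (fun e => by simp [e]) fun e => by
      have a := (ck_sound h1 e.1).2
      have b := (ck_sound h1 e.2).2
      push_cast at a b ⊢
      constructor <;> linarith)
  refine ⟨le_of_eq_of_le ?_ H.1, le_of_eq_of_le ?_ H.2⟩
  · simp only [← ex_cast, se, sm_eq, Nat.mul_eq, Nat.add_eq, Nat.succ_eq_add_one]
    push_cast
    rw [sum_div]
    exact congrArg _ (sum_congr rfl fun i _ => by ring)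
  · simp only [← bx_cast, sm_eq, Nat.mul_eq, Nat.add_eq, Nat.succ_eq_add_one]
    push_cast
    rw [sum_div]
    exact congrArg _ (sum_congr rfl fun i _ => by ring)

lemma ell (h1 : SCos) {G p : ℕ} (hp : p ≤ 980)
    (hG : ∀ i < 40, ck (99 * (p * (i + 1))) 2920400 (50 * (p * (i + 1))) (dg G i) = true) :
    ∀ i < 40, (dg G i / 256 : ℝ) ≤ Real.pi ∧ ∀ t φ : ℝ, 0 < t → t < p * (i + 1) / 16000 →
      |φ| < dg G i / 256 → (t : ℂ) * Complex.exp (φ * Complex.I) ∈ GG (5 / 2) (99 / 20) := by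
  intro i hi
  have a := ck_sound h1 (hG i hi)
  refine ⟨a.1, fun t φ h0 h2 h3 => h1.2.2.1 _ _ t _ φ _ (by norm_num) (by norm_num) h0.le h2.le ?_
    h3.le a.1 ?_⟩
  · have : p * (i + 1) ≤ 980 * 40 := Nat.mul_le_mul hp hi
    have : (p : ℝ) * (i + 1) ≤ 980 * 40 := by exact_mod_cast this
    linarith
  · have := a.2
    push_cast at this
    linarith

lemma lo_cast {x : ℕ} {y : ℝ} (h : (x : ℝ) / 1024000000 / 128 ≤ y) :
    ((x / 1024000000 - 1 : ℕ) : ℝ) / 128 ≤ max 0 (y - 1 / 128) := by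
  have h1 : ((x / 1024000000 : ℕ) : ℝ) ≤ x / (1024000000 : ℕ) := Nat.cast_div_le
  rcases Nat.eq_zero_or_pos (x / 1024000000) with e | e
  · simp [e]
  · rw [Nat.cast_sub e]
    push_cast at h1 ⊢
    exact le_max_of_le_right (by linarith)

lemma hi_cast {p a b : ℕ} {ρ y z : ℝ} (h0 : 0 ≤ ρ) (h : ρ ≤ p / 400) (h1 : y ≤ a / 819200)
    (h2 : ρ ^ 2 * (b / 819200) ≤ z) :
    y * ρ ^ 2 - z + 1 / 128 ≤ ((p * p * (a - b) / 1024000000 + 2 : ℕ) : ℝ) / 128 := by
  have h3 : (a : ℝ) - b ≤ (a - b : ℕ) := by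
    rw [sub_le_iff_le_add]
    exact_mod_cast le_tsub_add
  have h4 : ((p * p * (a - b) : ℕ) : ℝ) < (p * p * (a - b) / 1024000000 + 1 : ℕ) * 1024000000 := by
    exact_mod_cast (by omega : p * p * (a - b) < (p * p * (a - b) / 1024000000 + 1) * 1024000000)
  have h5 := mul_le_mul_of_nonneg_right (pow_le_pow_left₀ h0 h 2)
    ((a - b : ℕ).cast_nonneg (α := ℝ))
  have h6 := mul_le_mul_of_nonneg_right h1 (sq_nonneg ρ)
  have h7 := mul_le_mul_of_nonneg_right h3 (sq_nonneg ρ)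
  rw [Nat.cast_mul, Nat.cast_mul, Nat.cast_add] at h4
  rw [Nat.cast_add]
  generalize ((p * p * (a - b) / 1024000000 : ℕ) : ℝ) = q at *
  generalize ((a - b : ℕ) : ℝ) = d at *
  push_cast at *
  linarith

lemma ss_mono : Monotone fun j => (ss j : ℝ) / 20 := monotone_nat_of_le_succ fun j => by
  have : ss j ≤ ss (j + 1) := by
    cases j with
    | zero => exact Nat.zero_le _
    | succ n => exact Nat.le_succ _
  gcongr

lemma max_cast (a b : ℕ) :
    max 0 ((a : ℝ) / 2 ^ 64 - b / 2 ^ 64) = ((a - b : ℕ) : ℝ) / 2 ^ 64 := by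
  rcases le_total a b with h | h
  · have : (a : ℝ) ≤ b := by exact_mod_cast h
    rw [Nat.sub_eq_zero_of_le h, max_eq_left (by linarith)]
    simp
  · have : (b : ℝ) ≤ a := by exact_mod_cast h
    rw [Nat.cast_sub h, max_eq_right (by linarith), sub_div]

lemma cell_sound (h0 : STail) (h1 : SCos) (h2 : SSect) (h3 : SExp) (h4 : SCell)
    {D G p₁ p₂ c₁ c₂ : ℕ} (hr : rok D G p₂ = true) (hp₁ : 200 ≤ p₁) (hp : p₁ ≤ p₂)
    (hp₂ : p₂ ≤ 980) (hc : c₁ ≤ c₂) :
    Cell 8 (5 / 2) (99 / 20) (9901 / 2000) (1 / 10000) (p₁ / 400) (p₂ / 400) (c₁ / 256) (c₂ / 256)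
      (((p₂ * p₂ - p₁ * p₁) * ((c₂ - c₁) * cell D G p₁ p₂ c₁ c₂) : ℕ) / (40960000 * 2 ^ 96)) := by
  have hR := fun i hi => al_true hr i hi
  simp only [Bool.and_eq_true] at hR
  have a₁ : (200 : ℝ) ≤ p₁ := by exact_mod_cast hp₁
  have a : (p₁ : ℝ) ≤ p₂ := by exact_mod_cast hp
  have a₂ : (p₂ : ℝ) ≤ 980 := by exact_mod_cast hp₂
  have a₃ : (c₁ : ℝ) ≤ c₂ := by exact_mod_cast hc
  refine (h4 8 9 _ _ _ _ (1 / 10 ^ 10) _ _ _ _ (fun j => ss j / 20)
    (fun j => ge D G p₁ c₁ c₂ j / 128) (fun j => ga D p₂ c₁ c₂ j / 128)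
    (fun j => gb G p₂ c₁ c₂ j / 128) (fun j => tU (gb G p₂ c₁ c₂ j) / 2 ^ 32)
    (fun j => FF D G p₁ p₂ c₁ c₂ j / 2 ^ 64) (by norm_num) (by norm_num) (by norm_num)
    (by norm_num) (by norm_num) (by norm_num) (by norm_num) (by linarith) (by linarith)
    (by linarith) (by linarith) (by positivity) (by linarith) (by simp [ss]) ss_mono
    (by norm_num [show ss 9 = 20 from rfl]) (by simp [FF]) (fun u hu j hj => ?_) (fun j hj => ?_)).mono ?_
  · obtain ⟨b₁, b₂, b₃, b₄⟩ := hu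
    have u0 : u ≠ 0 := norm_pos_iff.1 (by linarith)
    have hG := ell h1 hp₂ fun i hi => (hR i hi).2
    have e₁ := (sect h1 h2 (j := j) (by omega) u0 b₂ b₃ b₄ (fun i hi => (hR i hi).1) hG).1
    have e₂ := (sect h1 h2 (j := j) (G := fun _ => 804) (H := univ) (by omega) u0 b₂ b₃ b₄
      (fun i hi => (hR i hi).1) fun i _ => ⟨by push_cast; linarith [Real.pi_gt_d4],
        fun _ _ _ _ _ => mem_univ _⟩).1
    have e₃ := (sect h1 h2 (j := j + 1) (by omega) u0 b₂ b₃ b₄ (fun i hi => (hR i hi).1) hG).2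
    rw [Set.univ_inter] at e₂
    refine ⟨(lo_cast (le_trans ?_ e₁)).trans (max_le_max le_rfl (by linarith)), ?_, ?_⟩
    · have := mul_le_mul_of_nonneg_right (pow_le_pow_left₀ (by positivity) b₁ 2)
        ((se D (dg G) (bt j) c₁ c₂).cast_nonneg (α := ℝ))
      push_cast
      linarith
    · have := hi_cast (a := 2573593) (y := Real.pi) (norm_nonneg u) b₂
        (by push_cast; linarith [Real.pi_lt_d20]) e₂
      rw [ar_diff (B := DD (5 / 2) ∪ _) isBounded_ball
        (measurableSet_closedBall.union measurableSet_ball), ar_ball _ (norm_nonneg u)]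
      exact le_trans (by linarith) this
    · have := hi_cast (a := 2573593 * ss (j + 1) ^ 2 / 400 + 1)
        (y := Real.pi * (ss (j + 1) / 20) ^ 2) (norm_nonneg u) b₂ (by
          have c : ((2573593 * ss (j + 1) ^ 2 : ℕ) : ℝ) <
              (2573593 * ss (j + 1) ^ 2 / 400 + 1 : ℕ) * 400 := by
            exact_mod_cast (by omega : 2573593 * ss (j + 1) ^ 2 <
              (2573593 * ss (j + 1) ^ 2 / 400 + 1) * 400)
          have d := mul_le_mul_of_nonneg_right (show Real.pi ≤ 2573593 / 819200 by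
            linarith [Real.pi_lt_d20]) (sq_nonneg (ss (j + 1) : ℝ))
          generalize ((2573593 * ss (j + 1) ^ 2 / 400 + 1 : ℕ) : ℝ) = q at *
          push_cast at c
          linarith) e₃
      rw [ar_diff isBounded_ball ((meas_GG _ _).inter measurableSet_ball),
        ar_ball _ (by positivity)]
      exact le_trans (by linarith) this
  · refine ⟨?_, (h3 _).2, by positivity⟩
    have : FF D G p₁ p₂ c₁ c₂ j = exU (ge D G p₁ c₁ c₂ j) * tU (ga D p₂ c₁ c₂ j) := by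
      have : Nat.ble 9 j = false := by
        rw [← Bool.not_eq_true, Nat.ble_eq]
        omega
      rw [FF, this, cond_false]
    rw [this]
    refine (mul_le_mul (h3 _).1 (h3 _).2 (h0.1 _ _ (by positivity)) (by positivity)).trans_eq ?_
    push_cast
    ring
  · simp only [max_cast]
    rw [Nat.cast_mul, Nat.cast_mul, Nat.cast_sub hc, Nat.cast_sub (Nat.mul_le_mul hp hp), cell, sm_eq]
    have e : ∑ j ∈ range 9, (tU (gb G p₂ c₁ c₂ (j + 1)) : ℝ) / 2 ^ 32 *
        (((FF D G p₁ p₂ c₁ c₂ j - FF D G p₁ p₂ c₁ c₂ (j + 1) : ℕ) : ℝ) / 2 ^ 64) =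
        ((∑ j ∈ range 9, tU (gb G p₂ c₁ c₂ (j + 1)) *
          (FF D G p₁ p₂ c₁ c₂ j - FF D G p₁ p₂ c₁ c₂ (j + 1)) : ℕ) : ℝ) / 2 ^ 96 := by
      rw [Nat.cast_sum, sum_div]
      exact sum_congr rfl fun j _ => by rw [Nat.cast_mul]; ring
    rw [e, Nat.cast_add]
    generalize ((∑ j ∈ range 9, tU (gb G p₂ c₁ c₂ (j + 1)) *
      (FF D G p₁ p₂ c₁ c₂ j - FF D G p₁ p₂ c₁ c₂ (j + 1)) : ℕ) : ℝ) = x
    have f : (0 : ℝ) ≤ ((p₂ : ℝ) * p₂ - p₁ * p₁) * (c₂ - c₁) :=
      mul_nonneg (by nlinarith) (by linarith)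
    push_cast
    linarith

/-- bound for a ring of positions -/
def Ring (p₁ p₂ V : ℕ) : Prop :=
  Cell 8 (5 / 2) (99 / 20) (9901 / 2000) (1 / 10000) (p₁ / 400) (p₂ / 400) 0 4 (V / 10 ^ 9)

lemma Ring.add {a b c V V' : ℕ} (h : Ring a b V) (h' : Ring b c V') : Ring a c (V + V') :=
  (Cell.add_rad h h').mono (by push_cast; linarith)

/-- soundness of the row test -/
def SRow : Prop := ∀ D G H m p₁ p₂ V : ℕ, ok D G H m p₁ p₂ V = true → Ring p₁ p₂ V

theorem srow (h0 : STail) (h1 : SCos) (h2 : SSect) (h3 : SExp) (h4 : SCell) : SRow := by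
  intro D G H m p₁ p₂ V h
  simp only [ok, Bool.and_eq_true, Bool.or_eq_true, Nat.ble_eq, Nat.beq_eq] at h
  obtain ⟨⟨⟨⟨⟨⟨⟨hr, hp₁⟩, hp⟩, hp₂⟩, hz⟩, hm⟩, hc⟩, hV⟩ := h
  have key : ∀ n ≤ m, Cell 8 (5 / 2) (99 / 20) (9901 / 2000) (1 / 10000) (p₁ / 400) (p₂ / 400) 0
      (dg H n / 256) (((p₂ * p₂ - p₁ * p₁) * row D G H n p₁ p₂ : ℕ) / (40960000 * 2 ^ 96)) := by
    intro n hn
    induction n with
    | zero => simpa [hz, row, sm_eq] using cell_sound h0 h1 h2 h3 h4 hr hp₁ hp hp₂ (le_refl 0)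
    | succ n ih =>
      refine ((ih (by omega)).add_ang (cell_sound h0 h1 h2 h3 h4 hr hp₁ hp hp₂
        (Nat.ble_eq.mp (al_true hm n hn)))).mono (le_of_eq ?_)
      rw [row, row, sm_eq, sm_eq, sum_range_succ, mul_add, Nat.cast_add, add_div]
  refine ((key m le_rfl).cover fun u hu hu' => ?_).mono ?_
  · rcases le_or_gt 805 (dg H m) with a | a
    · have : (805 : ℝ) ≤ dg H m := by exact_mod_cast a
      linarith [Complex.abs_arg_le_pi u, Real.pi_lt_d4]
    · have b := ck_sound h1 (hc.resolve_left a.not_ge)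
      refine h1.2.2.2 _ _ _ _ _ u (by norm_num) (by norm_num) hu (by positivity) hu' ?_ b.1 ?_
      · rw [Nat.cast_sub a.le]
        push_cast
        linarith [Real.pi_lt_d4]
      · have := b.2
        rw [Nat.cast_mul, Nat.cast_mul] at this
        generalize Real.cos _ = y at *
        push_cast at this
        linarith
  · have := (Nat.cast_le (α := ℝ)).2 hV
    rw [Nat.cast_mul, Nat.cast_mul V] at this
    generalize (((p₂ * p₂ - p₁ * p₁) * row D G H m p₁ p₂ : ℕ) : ℝ) = x at *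
    push_cast at this
    linarith

lemma lens (h1 : SCos) (h2 : SSect) {D : ℕ}
    (hD : (al 40 fun i => ck (980 * (i + 1)) 0 80000 (dg D i)) = true) :
    ((980 * 980 * se D (fun _ => 0) (bt 0) 0 0 / 1024000000 - 1 : ℕ) : ℝ) / 128 ≤
      max 0 (ar (DD (5 / 2) ∩ ball 0 ((980 : ℕ) / 400)) - 7 * (1 / 10000) ^ 2) := by
  have n : ‖(((49 / 20 : ℝ)) : ℂ)‖ = (980 : ℕ) / 400 := by
    rw [Complex.norm_real]
    norm_num
  have g : (((49 / 20 : ℝ)) : ℂ).arg = 0 := Complex.arg_ofReal_of_nonneg (by norm_num)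
  have e := (sect h1 h2 (j := 0) (c₁ := 0) (c₂ := 0) (G := fun _ => 0) (H := ∅)
    (u := ((49 / 20 : ℝ) : ℂ)) (by norm_num) (by norm_num) n.le (by rw [g]; simp) (by rw [g]; simp)
    (al_true hD) fun i _ => ⟨by simp [Real.pi_pos.le], fun _ φ _ _ h =>
      absurd h (by simp)⟩).1
  rw [n, Set.empty_inter, Set.union_empty, Set.inter_comm] at e
  refine (lo_cast (le_trans (le_of_eq ?_) e)).trans (max_le_max le_rfl (by linarith))
  push_cast
  ring

end Pool.Agent.P.MP_50fd71_pr.E8.NumP
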